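import Pool.Agent.MP_62ad46_lc.H29.Hostile

/-! Countable sums: the exact pair lemma, and least upper bounds above the bounded generic set. -/

set_option linter.unusedSectionVars false
set_option synthInstance.maxSize 100000

namespace Pool.Agent.MP_62ad46_lc.H29

open Pool.Agent.MP_62ad46_lc.H18 Pool.Agent.MP_6072c5_lc.H80 Cardinal

variable {M : Type} [CommSemiring M] [LinearOrder M] [IsPA M]

instance (priority := 60) {t : (ℕ → M) → M} {R : M → (ℕ → M) → Prop} [a : TmI t]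
    [h : S1I fun w => R (w 0) fun i => w (i + 1)] : S1I fun v => ∀ x, x ≤ t v → R x v :=
  ⟨s1_ballle a.out h.out⟩

theorem s1_fin {Q : ℕ → (ℕ → M) → Prop} (h : ∀ n, S1 (Q n)) :
    ∀ K : ℕ, S1 fun v => ∀ n, n ≤ K → Q n v
  | 0 => (h 0).congr fun v => ⟨fun H n hn => Nat.le_zero.1 hn ▸ H, fun H => H 0 le_rfl⟩
  | K + 1 => ((s1_fin h K).and (h (K + 1))).congr fun v =>
      ⟨fun H n hn => (Nat.of_le_succ hn).elim (H.1 n) fun e => e ▸ H.2,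
        fun H => ⟨fun n hn => H n (hn.trans K.le_succ), H _ le_rfl⟩⟩

theorem exists_confs (x : ℕ → Set M) (Y : Set M) (J : ℕ → Prop) (h : ∀ n, J n → Red (x n) Y) :
    ∃ C : ℕ → M → M → M → M → Prop, (∀ n, S1 fun v => C n (v 0) (v 1) (v 2) (v 3)) ∧
      (∀ n k₁ k₀ a b, Sub a Y → Sub b Yᶜ → C n k₁ k₀ a b → Sub k₁ (x n) ∧ Sub k₀ (x n)ᶜ) ∧
      ∀ (K : ℕ) (l₁ l₀ : ℕ → M) (a₀ b₀ : M), (∀ n, Sub (l₁ n) (x n)) → (∀ n, Sub (l₀ n) (x n)ᶜ) →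
        Sub a₀ Y → Sub b₀ Yᶜ → ∃ a b, Sub a Y ∧ Sub b Yᶜ ∧ sub a₀ a ∧ sub b₀ b ∧
          ∀ n, n < K → J n → C n (l₁ n) (l₀ n) a b := by
  have : ∀ n, ∃ C : M → M → M → M → Prop, (S1 fun v => C (v 0) (v 1) (v 2) (v 3)) ∧
      (∀ k₁ k₀ a b, Sub a Y → Sub b Yᶜ → C k₁ k₀ a b → Sub k₁ (x n) ∧ Sub k₀ (x n)ᶜ) ∧
      (J n → Conf (x n) Y C) := fun n => by
    by_cases hn : J n
    · obtain ⟨C, hC⟩ := (h n hn).conf
      exact ⟨C, hC.s1, fun _ _ _ _ => hC.sound, fun _ => hC⟩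
    · exact ⟨fun a _ _ _ => a ≠ a, by exact S1I.out, fun _ _ _ _ _ _ h => absurd rfl h,
        fun h => absurd h hn⟩
  choose C h1 h2 h3 using this
  refine ⟨C, h1, h2, fun K l₁ l₀ a₀ b₀ t₁ t₀ ha hb => ?_⟩
  induction K with
  | zero => exact ⟨a₀, b₀, ha, hb, sub_refl _, sub_refl _, fun n hn => absurd hn n.not_lt_zero⟩
  | succ K ih =>
    obtain ⟨a, b, p1, p2, p3, p4, p5⟩ := ih
    by_cases hK : J K
    · obtain ⟨a', b', q1, q2, q3⟩ := (h3 K hK).compl (t₁ K) (t₀ K)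
      obtain ⟨u, u0, u1, u2, -⟩ := union_sub p1 q1
      obtain ⟨w, w0, w1, w2, -⟩ := union_sub p2 q2
      refine ⟨u, w, u0, w0, p3.trans u1, p4.trans w1, fun n hn hJ => ?_⟩
      rcases Nat.lt_succ_iff_lt_or_eq.1 hn with hn | rfl
      · exact (h3 n hJ).mono (p5 n hn hJ) (sub_refl _) (sub_refl _) u1 w1
      · exact (h3 n hJ).mono q3 (sub_refl _) (sub_refl _) u2 w2
    · refine ⟨a, b, p1, p2, p3, p4, fun n hn hJ => ?_⟩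
      rcases Nat.lt_succ_iff_lt_or_eq.1 hn with hn | rfl
      · exact p5 n hn hJ
      · exact absurd hJ hK

/-- The sum of a sequence of sets along the standard cut. -/
def osum (x : ℕ → Set M) : Set M := {z | ∃ n : ℕ, ∃ t ∈ x n, z = pr (n : M) t}

theorem mem_osum {x : ℕ → Set M} {n : ℕ} {t : M} : pr (n : M) t ∈ osum x ↔ t ∈ x n := by
  refine ⟨?_, fun h => ⟨n, t, h, rfl⟩⟩
  rintro ⟨m, s, h, e⟩
  obtain ⟨e1, rfl⟩ := pr_inj.1 e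
  obtain rfl : n = m := by exact_mod_cast e1
  exact h

theorem exists_cols (a : M) : ∃ K, ∀ n, mem n K ↔ ∃ t, mem (pr n t) a := by
  obtain ⟨K, hK⟩ := compr (P := fun n => ∃ t, mem (pr n t) a) (by exact ArI.out) a
  exact ⟨K, fun n => (hK n).trans ⟨fun h => h.2,
    fun ⟨t, h⟩ => ⟨(le_pr_left _ _).trans_lt (lt_of_mem h), t, h⟩⟩⟩

theorem std_bound {K : M} (h : Sub K (omega M)) : ∃ k : ℕ, ∀ n, mem n K → n ≤ k := by
  obtain ⟨c, h1, h2⟩ := exists_max_bound K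
  obtain ⟨k, rfl⟩ : c ∈ omega M := h2.elim (fun h => ⟨0, by simp [h]⟩) (h c)
  exact ⟨k, h1⟩

/-- The exact pair lemma: a countably directed set below the sum of countably directed sets is
below the join of finitely many of them. -/
theorem exact_pair (hS : Sat (aleph 1) M) {x : ℕ → Set M} (hx : ∀ n, Dir (x n)) {W : Set M}
    (hW : Dir W) (h : Red W (osum x)) :
    ∃ k : ℕ, ∀ Y, (∀ n, n ≤ k → Red (x n) Y) → Red W Y := by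
  obtain ⟨C, hC⟩ := h.conf
  have : S4 C := ⟨hC.s1⟩
  have : Ar4 C := ⟨hC.s1.ar⟩
  choose r hr using exists_row (M := M)
  obtain ⟨j, hj⟩ : ∃ j : ℕ, ∀ k₁ k₀, Sub k₁ W → Sub k₀ Wᶜ → ∃ a b, Sub a (osum x) ∧
      Sub b (osum x)ᶜ ∧ C k₁ k₀ a b ∧ ∀ z, mem z a → ∃ n t, z = pr n t ∧ n ≤ (j : M) := by
    by_contra hn
    simp only [not_exists, not_forall] at hn
    choose k₁ k₀ t₁ t₀ hk using hn
    obtain ⟨l₁, l₀, u₁, u₀, w₁, w₀⟩ := hW k₁ k₀ t₁ t₀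
    obtain ⟨a, b, ha, hb, hc⟩ := hC.compl u₁ u₀
    obtain ⟨K, hK⟩ := exists_cols a
    obtain ⟨j, hj⟩ := std_bound (K := K) fun n hn => by
      obtain ⟨t, ht⟩ := (hK n).1 hn
      obtain ⟨m, s, -, e⟩ := ha _ ht
      exact (pr_inj.1 e).1 ▸ nat_std m
    refine hk j a b ⟨ha, hb, hC.mono hc (w₁ _) (w₀ _) (sub_refl _) (sub_refl _), fun z hz => ?_⟩
    obtain ⟨m, s, -, rfl⟩ := ha z hz
    exact ⟨m, s, rfl, hj _ ((hK _).2 ⟨s, hz⟩)⟩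
  obtain ⟨k, hk⟩ : ∃ k : ℕ, ∀ k₁ k₀ a b, C k₁ k₀ a b → Sub a (osum x) →
      (∀ z, mem z a → ∃ n t, z = pr n t ∧ n ≤ (j : M)) →
      (∀ n : ℕ, n ≤ k → ∀ t, mem (pr (n : M) t) b → t ∉ x n) → Sub k₁ W ∧ Sub k₀ Wᶜ := by
    by_contra hn
    simp only [not_exists, not_forall] at hn
    choose k₁ k₀ a b hc ha ha' hb hk using hn
    choose l₁ l₀ t₁ t₀ hcl using fun n => exists_clash (hk n)
    obtain ⟨L₁, L₀, u₁, u₀, w₁, w₀⟩ := hW l₁ l₀ t₁ t₀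
    have := fun n : ℕ => hx n (fun k => r n (a k)) (fun k => r n (b (n + k)))
      (fun k t ht => mem_osum.1 (ha k _ ((hr _ _ _).1 ht)))
      fun k t ht => hb (n + k) n (Nat.le_add_right _ _) t ((hr _ _ _).1 ht)
    choose α β p₁ p₀ q₁ q₀ using this
    obtain ⟨d₁, hd₁⟩ := hS.code α
    obtain ⟨d₀, hd₀⟩ := hS.code β
    obtain ⟨N, hN, H⟩ := overspill hS.nonstd (P := fun N => ∃ k₁ k₀ a b, C k₁ k₀ a b ∧
      Clash k₁ k₀ L₁ L₀ ∧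
      (∀ z, mem z a → ∃ n t, z = pr n t ∧ n ≤ (j : M) ∧ ∃ s, mem (pr n s) d₁ ∧ mem t s) ∧
      ∀ n t, mem (pr n t) b → n ≤ N → ∃ s, mem (pr n s) d₀ ∧ mem t s)
      (by unfold Clash; exact ArI.out) fun N => by
        refine ⟨k₁ N, k₀ N, a N, b N, hc N, (hcl N).mono (w₁ N) (w₀ N), fun z hz => ?_,
          fun n t ht hn => ?_⟩
        · obtain ⟨n, t, rfl, hn⟩ := ha' N z hz
          obtain ⟨n, -, rfl⟩ := exists_nat_of_le hn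
          exact ⟨n, t, rfl, hn, α n, (hd₁ _ _).2 rfl, q₁ n N t ((hr _ _ _).2 hz)⟩
        · obtain ⟨n, hn', rfl⟩ := exists_nat_of_le hn
          obtain ⟨k, rfl⟩ := Nat.exists_eq_add_of_le hn'
          exact ⟨β n, (hd₀ _ _).2 rfl, q₀ n k t ((hr _ _ _).2 ht)⟩
    obtain ⟨k₁, k₀, a, b, h1, h2, h3, h4⟩ := H N le_rfl
    refine h2.false (hC.sound (fun z hz => ?_) (fun z hz => ?_) h1) u₁ u₀
    · obtain ⟨n, t, rfl, hn, s, e1, e2⟩ := h3 z hz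
      obtain ⟨n, -, rfl⟩ := exists_nat_of_le hn
      exact mem_osum.2 (p₁ n t ((hd₁ _ _).1 e1 ▸ e2))
    · rintro ⟨n, t, ht, rfl⟩
      obtain ⟨s, e1, e2⟩ := h4 n t hz (le_of_nonstd (nat_std n) hN)
      exact p₀ n t ((hd₀ _ _).1 e1 ▸ e2) ht
  refine ⟨j + k, fun Y hY => ?_⟩
  obtain ⟨D, d1, d2, d3⟩ := exists_confs x Y (fun n => n ≤ j + k) hY
  obtain ⟨T, hT, eT⟩ : ∃ T : M → M → M → M → Prop, (S1 fun v => T (v 0) (v 1) (v 2) (v 3)) ∧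
      ∀ a b h₀ h₁, T a b h₀ h₁ ↔ ∀ n : ℕ, n ≤ j + k → ∃ l₁ l₀, D n l₁ l₀ h₀ h₁ ∧
        (∀ t, mem (pr (n : M) t) a → mem t l₁) ∧ ∀ t, mem (pr (n : M) t) b → mem t l₀ :=
    ⟨_, s1_fin (fun n => by have : S4 (D n) := ⟨d1 n⟩; exact S1I.out) _, fun _ _ _ _ => Iff.rfl⟩
  have : S4 T := ⟨hT⟩
  refine red_of_rel (fun k₁ k₀ h₀ h₁ => ∃ a b, C k₁ k₀ a b ∧
    (∀ z, mem z a → ∃ n t, z = pr n t ∧ n ≤ (j : M)) ∧ T a b h₀ h₁) (by exact S1I.out) ?_ ?_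
  · rintro k₁ k₀ h₀ h₁ s₀ s₁ ⟨a, b, p1, p2, p3⟩
    rw [eT] at p3
    refine hk k₁ k₀ a b p1 (fun z hz => ?_) p2 fun n hn t ht => ?_
    · obtain ⟨n, t, rfl, hn⟩ := p2 z hz
      obtain ⟨n, hn', rfl⟩ := exists_nat_of_le hn
      obtain ⟨l₁, l₀, q1, q2, -⟩ := p3 n (hn'.trans (Nat.le_add_right _ _))
      exact mem_osum.2 ((d2 n _ _ _ _ s₀ s₁ q1).1 t (q2 t hz))
    · obtain ⟨l₁, l₀, q1, -, q2⟩ := p3 n (hn.trans (Nat.le_add_left _ _))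
      exact (d2 n _ _ _ _ s₀ s₁ q1).2 t (q2 t ht)
  · intro k₁ k₀ t₁ t₀
    obtain ⟨a, b, ha, hb, p1, p2⟩ := hj k₁ k₀ t₁ t₀
    obtain ⟨e, he⟩ := exists_empty (M := M)
    obtain ⟨h₀, h₁, s₀, s₁, -, -, H⟩ := d3 (j + k + 1) (fun n => r n a) (fun n => r n b) e e
      (fun n t ht => mem_osum.1 (ha _ ((hr _ _ _).1 ht)))
      (fun n t ht h => hb _ ((hr _ _ _).1 ht) (mem_osum.2 h)) (sub_empty he _) (sub_empty he _)
    exact ⟨h₀, h₁, s₀, s₁, a, b, p1, p2, (eT _ _ _ _).2 fun n hn => ⟨_, _,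
      H n (Nat.lt_succ_of_le hn) hn, fun t ht => (hr _ _ _).2 ht, fun t ht => (hr _ _ _).2 ht⟩⟩

theorem cols_bdd (hS : Sat (aleph 1) M) {R : M → Prop}
    (hR : ∀ k, (∀ x, mem x k → R x) → {x | mem x k}.Finite) {K : M}
    (hK : ∀ n, mem n K → n ∉ omega M → R n) : ∃ k : ℕ, ∀ n, mem n K → n ≤ k ∨ n ∉ omega M := by
  have fin : {n | mem n K ∧ n ∉ omega M}.Finite := by
    by_contra hinf
    let f := Set.Infinite.natEmbedding _ hinf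
    obtain ⟨s, hs⟩ := hS.seq (fun i x => (i : M) < x ∧ x ≤ (f i : M)) (fun i => by exact ArI.out)
      fun N => ⟨N, fun i hi => ⟨by exact_mod_cast hi, le_of_nonstd (nat_std N) (f i).2.2⟩⟩
    have hsn : s ∉ omega M := fun ⟨i, hi⟩ => absurd (hs i).1 (by rw [hi]; exact lt_irrefl s)
    obtain ⟨K', hK'⟩ := compr (P := fun x => mem x K ∧ s ≤ x) (by exact ArI.out) K
    refine Set.infinite_range_of_injective (Subtype.val_injective.comp f.injective)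
      ((hR K' fun x hx => hK x ((hK' x).1 hx).2.1
        fun h => hsn (std_of_le ((hK' x).1 hx).2.2 h)).subset ?_)
    rintro _ ⟨n, rfl⟩
    exact (hK' _).2 ⟨lt_of_mem (f n).2.1, (f n).2.1, (hs n).2⟩
  obtain ⟨s, hs, hs'⟩ : ∃ s, s ∉ omega M ∧ ∀ n, mem n K → n ∉ omega M → s ≤ n := by
    rcases Set.eq_empty_or_nonempty {n | mem n K ∧ n ∉ omega M} with he | hne
    · obtain ⟨s, hs⟩ := hS.nonstd
      exact ⟨s, hs, fun n a b => absurd (he ▸ ⟨a, b⟩ : n ∈ (∅ : Set M)) (Set.notMem_empty n)⟩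
    · obtain ⟨s, hs, hm⟩ := Set.exists_min_image _ id fin hne
      exact ⟨s, hs.2, fun n a b => hm n ⟨a, b⟩⟩
  obtain ⟨K', hK'⟩ := compr (P := fun x => mem x K) (by exact ArI.out) s
  obtain ⟨k, hk⟩ := std_bound (K := K') fun x hx => by_contra fun h =>
    absurd ((hK' x).1 hx).1 (not_lt.2 (hs' x ((hK' x).1 hx).2 h))
  refine ⟨k, fun n hn => (em (n ∈ omega M)).imp (fun h => hk n ((hK' n).2 ⟨?_, hn⟩)) id⟩
  exact lt_of_le_of_ne (le_of_nonstd h hs) fun e => hs (e ▸ h)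

/-- The sum of a sequence of sets, with nonstandard columns filled according to `c`. -/
def zs (c : Set M) (g : ℕ → Set M) : Set M :=
  {z | ∃ n t, z = pr n t ∧ ((∃ m : ℕ, n = m ∧ t ∈ g m) ∨ (n ∉ omega M ∧ n ∈ c))}

theorem mem_zs {c : Set M} {g : ℕ → Set M} {n : ℕ} {t : M} : pr (n : M) t ∈ zs c g ↔ t ∈ g n := by
  refine ⟨?_, fun h => ⟨n, t, rfl, Or.inl ⟨n, rfl, h⟩⟩⟩
  rintro ⟨m, s, e, h⟩
  obtain ⟨rfl, rfl⟩ := pr_inj.1 e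
  rcases h with ⟨m, e1, h⟩ | h
  · obtain rfl : n = m := by exact_mod_cast e1
    exact h
  · exact absurd (nat_std n) h.1

theorem mem_zs' {c : Set M} {g : ℕ → Set M} {n t : M} (hn : n ∉ omega M) :
    pr n t ∈ zs c g ↔ n ∈ c := by
  refine ⟨?_, fun h => ⟨n, t, rfl, Or.inr ⟨hn, h⟩⟩⟩
  rintro ⟨m, s, e, h⟩
  obtain ⟨rfl, rfl⟩ := pr_inj.1 e
  rcases h with ⟨m, rfl, h⟩ | h
  · exact absurd (nat_std m) hn
  · exact h.2

theorem touch_bdd (hS : Sat (aleph 1) M) {ν : M} {c : Set M} (hc : SG ν c) {g : ℕ → Set M}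
    {a b : M} (ha : Sub a (zs c g)) (hb : Sub b (zs c g)ᶜ) :
    ∃ k : ℕ, ∀ n t, mem (pr n t) a ∨ mem (pr n t) b → n ≤ k ∨ n ∉ omega M := by
  obtain ⟨Ka, hKa⟩ := exists_cols a
  obtain ⟨Kb, hKb⟩ := compr (P := fun n => ∃ t, mem (pr n t) b) (by exact ArI.out) (ν + 1)
  obtain ⟨k₁, h1⟩ := cols_bdd hS (R := fun x => x ∈ c) (fun k hk => hc.finite1 hS hk) (K := Ka)
    fun n hn hn' => by
      obtain ⟨t, ht⟩ := (hKa n).1 hn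
      exact (mem_zs' hn').1 (ha _ ht)
  obtain ⟨k₀, h0⟩ := cols_bdd hS (R := fun x => x ≤ ν ∧ x ∉ c) (fun k hk => hc.finite0 hS hk)
    (K := Kb) fun n hn hn' => by
      obtain ⟨h, t, ht⟩ := (hKb n).1 hn
      exact ⟨lt_succ_iff.1 h, fun h' => hb _ ht ((mem_zs' hn').2 h')⟩
  refine ⟨k₁ + k₀, fun n t h => ?_⟩
  rw [Nat.cast_add]
  rcases h with h | h
  · exact (h1 n ((hKa n).2 ⟨t, h⟩)).imp (fun h => h.trans le_self_add) id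
  · by_cases hn : n ∈ omega M
    · exact (h0 n ((hKb n).2 ⟨lt_succ_iff.2 (le_of_nonstd hn hc.1), t, h⟩)).imp
        (fun h => h.trans le_add_self) id
    · exact Or.inr hn

theorem zs_conf (hS : Sat (aleph 1) M) {ν : M} {c : Set M} (hc : SG ν c) (g : ℕ → Set M)
    (J : ℕ → Prop) {Y : Set M} (hcY : Red c Y) (hg : ∀ n, J n → Red (g n) Y) :
    ∃ T : M → M → M → M → Prop, (S1 fun v => T (v 0) (v 1) (v 2) (v 3)) ∧
      (∀ a b h₀ h₁, Sub h₀ Y → Sub h₁ Yᶜ → T a b h₀ h₁ → Sub a (zs c g) ∧ Sub b (zs c g)ᶜ) ∧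
      ∀ a b, Sub a (zs c g) → Sub b (zs c g)ᶜ →
        (∀ (n : ℕ) t, mem (pr (n : M) t) a ∨ mem (pr (n : M) t) b → J n) →
        ∃ h₀ h₁, Sub h₀ Y ∧ Sub h₁ Yᶜ ∧ T a b h₀ h₁ := by
  obtain ⟨Ω, hΩ⟩ := ((hc.red_omega hS).trans hcY).conf
  obtain ⟨Γ, hΓ⟩ := hcY.conf
  obtain ⟨D, d1, d2, d3⟩ := exists_confs g Y J hg
  obtain ⟨V, hV, eV⟩ := exists_unif hS D d1
  have : S4 Ω := ⟨hΩ.s1⟩
  have : S4 Γ := ⟨hΓ.s1⟩
  have : S2 V := ⟨hV⟩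
  refine ⟨fun a b h₀ h₁ => ∃ k u₁ u₀ w₁ w₀, Ω u₁ u₀ h₀ h₁ ∧ Γ w₁ w₀ h₀ h₁ ∧ mem k u₁ ∧
    (∀ z, mem z a → ∃ n t, z = pr n t ∧ (n ≤ k ∨ (mem n u₀ ∧ mem n w₁))) ∧
    (∀ z, mem z b → ∀ n t, z = pr n t → (n ≤ k ∨ (mem n u₀ ∧ mem n w₀))) ∧
    ∀ n, n ≤ k → ((∀ t, mem (pr n t) a → t ≠ t) ∧ ∀ t, mem (pr n t) b → t ≠ t) ∨
      ∃ l₁ l₀, V n (pr l₁ (pr l₀ (pr h₀ h₁))) ∧ (∀ t, mem (pr n t) a → mem t l₁) ∧
        ∀ t, mem (pr n t) b → mem t l₀, by exact S1I.out, ?_, ?_⟩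
  · rintro a b h₀ h₁ s₀ s₁ ⟨k, u₁, u₀, w₁, w₀, p1, p2, p3, p4, p5, p6⟩
    obtain ⟨o1, o0⟩ := hΩ.sound s₀ s₁ p1
    obtain ⟨c1, c0⟩ := hΓ.sound s₀ s₁ p2
    have key : ∀ n t, n ≤ k → (mem (pr n t) a → pr n t ∈ zs c g) ∧
        (mem (pr n t) b → pr n t ∉ zs c g) := by
      intro n t hn
      obtain ⟨n, rfl⟩ := std_of_le hn (o1 k p3)
      rw [mem_zs]
      rcases p6 n hn with ⟨q1, q2⟩ | ⟨l₁, l₀, q1, q2, q3⟩
      · exact ⟨fun h => absurd rfl (q1 t h), fun h => absurd rfl (q2 t h)⟩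
      · have := d2 n _ _ _ _ s₀ s₁ ((eV _ _ _ _ _).2 q1)
        exact ⟨fun h => this.1 t (q2 t h), fun h => this.2 t (q3 t h)⟩
    refine ⟨fun z hz => ?_, fun z hz hz' => ?_⟩
    · obtain ⟨n, t, rfl, h | h⟩ := p4 z hz
      · exact (key n t h).1 hz
      · exact (mem_zs' (o0 n h.1)).2 (c1 n h.2)
    · obtain ⟨n, t, rfl, -⟩ := id hz'
      rcases p5 _ hz n t rfl with h | h
      · exact (key n t h).2 hz hz'
      · exact c0 n h.2 ((mem_zs' (o0 n h.1)).1 hz')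
  · intro a b ha hb hJ
    obtain ⟨k, hk⟩ := touch_bdd hS hc ha hb
    choose r hr using exists_row (M := M)
    obtain ⟨u₁, hu₁⟩ := exists_single (k : M)
    obtain ⟨w₁, hw₁⟩ := compr (P := fun n => (k : M) < n ∧ ∃ t, mem (pr n t) a) (by exact ArI.out) a
    obtain ⟨w₀, hw₀⟩ := compr (P := fun n => (k : M) < n ∧ ∃ t, mem (pr n t) b) (by exact ArI.out) b
    obtain ⟨u₀, hu₀⟩ := exists_union w₁ w₀
    have n1 : ∀ n, mem n w₁ → n ∉ omega M ∧ n ∈ c := fun n hn => by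
      obtain ⟨-, h, t, ht⟩ := (hw₁ n).1 hn
      have := (hk n t (Or.inl ht)).resolve_left (not_le.2 h)
      exact ⟨this, (mem_zs' this).1 (ha _ ht)⟩
    have n0 : ∀ n, mem n w₀ → n ∉ omega M ∧ n ∉ c := fun n hn => by
      obtain ⟨-, h, t, ht⟩ := (hw₀ n).1 hn
      have := (hk n t (Or.inr ht)).resolve_left (not_le.2 h)
      exact ⟨this, fun h' => hb _ ht ((mem_zs' this).2 h')⟩
    obtain ⟨a₁, b₁, x1, y1, p1⟩ := hΩ.compl (k₁ := u₁) (k₀ := u₀)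
      (fun x hx => (hu₁ x).1 hx ▸ nat_std k)
      fun x hx => ((hu₀ x).1 hx).elim (fun h => (n1 x h).1) fun h => (n0 x h).1
    obtain ⟨a₂, b₂, x2, y2, p2⟩ := hΓ.compl (k₁ := w₁) (k₀ := w₀) (fun x hx => (n1 x hx).2)
      fun x hx => (n0 x hx).2
    obtain ⟨a₃, x3, e1, e2, -⟩ := union_sub x1 x2
    obtain ⟨b₃, y3, f1, f2, -⟩ := union_sub y1 y2
    obtain ⟨h₀, h₁, s₀, s₁, e3, f3, H⟩ := d3 (k + 1) (fun n => r n a) (fun n => r n b) a₃ b₃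
      (fun n t ht => mem_zs.1 (ha _ ((hr _ _ _).1 ht)))
      (fun n t ht h => hb _ ((hr _ _ _).1 ht) (mem_zs.2 h)) x3 y3
    refine ⟨h₀, h₁, s₀, s₁, k, u₁, u₀, w₁, w₀,
      hΩ.mono p1 (sub_refl _) (sub_refl _) (e1.trans e3) (f1.trans f3),
      hΓ.mono p2 (sub_refl _) (sub_refl _) (e2.trans e3) (f2.trans f3), (hu₁ _).2 rfl,
      fun z hz => ?_, ?_, fun n hn => ?_⟩
    · obtain ⟨n, t, rfl, -⟩ := ha z hz
      refine ⟨n, t, rfl, (le_or_gt n k).imp id fun h => ?_⟩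
      have : mem n w₁ := (hw₁ n).2 ⟨(le_pr_left _ _).trans_lt (lt_of_mem hz), h, t, hz⟩
      exact ⟨(hu₀ n).2 (Or.inl this), this⟩
    · rintro z hz n t rfl
      refine (le_or_gt n k).imp id fun h => ?_
      have : mem n w₀ := (hw₀ n).2 ⟨(le_pr_left _ _).trans_lt (lt_of_mem hz), h, t, hz⟩
      exact ⟨(hu₀ n).2 (Or.inr this), this⟩
    · obtain ⟨n, hn', rfl⟩ := exists_nat_of_le hn
      by_cases hJ' : J n
      · exact Or.inr ⟨_, _, (eV _ _ _ _ _).1 (H n (Nat.lt_succ_of_le hn') hJ'),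
          fun t ht => (hr _ _ _).2 ht, fun t ht => (hr _ _ _).2 ht⟩
      · exact Or.inl ⟨fun t ht => absurd (hJ n t (Or.inl ht)) hJ',
          fun t ht => absurd (hJ n t (Or.inr ht)) hJ'⟩

/-- The filled sum is the least upper bound. -/
theorem zs_lub (hS : Sat (aleph 1) M) {ν : M} {c : Set M} (hc : SG ν c) {g : ℕ → Set M}
    {Y : Set M} (hcY : Red c Y) (hg : ∀ n, Red (g n) Y) : Red (zs c g) Y := by
  obtain ⟨T, h1, h2, h3⟩ := zs_conf hS hc g (fun _ => True) hcY fun n _ => hg n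
  exact red_of_rel T h1 h2 fun a b ha hb => h3 a b ha hb fun _ _ _ => trivial

theorem zs_dir (hS : Sat (aleph 1) M) {ν : M} {c : Set M} (hc : SG ν c) {g : ℕ → Set M}
    {W : Set M} (hW : Dir W) (h : Red W (zs c g)) :
    ∃ k : ℕ, ∀ Y, Red c Y → (∀ n, n ≤ k → Red (g n) Y) → Red W Y := by
  obtain ⟨C, hC⟩ := h.conf
  have : S4 C := ⟨hC.s1⟩
  obtain ⟨j, hj⟩ : ∃ j : ℕ, ∀ k₁ k₀, Sub k₁ W → Sub k₀ Wᶜ → ∃ a b, Sub a (zs c g) ∧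
      Sub b (zs c g)ᶜ ∧ C k₁ k₀ a b ∧
      ∀ (n : ℕ) t, mem (pr (n : M) t) a ∨ mem (pr (n : M) t) b → n ≤ j := by
    by_contra hn
    simp only [not_exists, not_forall] at hn
    choose k₁ k₀ t₁ t₀ hk using hn
    obtain ⟨l₁, l₀, u₁, u₀, w₁, w₀⟩ := hW k₁ k₀ t₁ t₀
    obtain ⟨a, b, ha, hb, h⟩ := hC.compl u₁ u₀
    obtain ⟨j, hj⟩ := touch_bdd hS hc ha hb
    refine hk j a b ⟨ha, hb, hC.mono h (w₁ _) (w₀ _) (sub_refl _) (sub_refl _), fun n t h => ?_⟩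
    exact_mod_cast (hj n t h).resolve_right (not_not.2 (nat_std n))
  refine ⟨j, fun Y hcY hg => ?_⟩
  obtain ⟨T, h1, h2, h3⟩ := zs_conf hS hc g (fun n => n ≤ j) hcY hg
  have : S4 T := ⟨h1⟩
  refine red_of_rel (fun k₁ k₀ h₀ h₁ => ∃ a b, C k₁ k₀ a b ∧ T a b h₀ h₁) (by exact S1I.out) ?_ ?_
  · rintro k₁ k₀ h₀ h₁ s₀ s₁ ⟨a, b, p1, p2⟩
    exact hC.sound (h2 _ _ _ _ s₀ s₁ p2).1 (h2 _ _ _ _ s₀ s₁ p2).2 p1
  · intro k₁ k₀ t₁ t₀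
    obtain ⟨a, b, ha, hb, p1, p2⟩ := hj k₁ k₀ t₁ t₀
    obtain ⟨h₀, h₁, s₀, s₁, p3⟩ := h3 a b ha hb p2
    exact ⟨h₀, h₁, s₀, s₁, a, b, p1, p3⟩

end Pool.Agent.MP_62ad46_lc.H29
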