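import Pool.Agent.MP_62ad46_lc.H29.Univ

/-! A definable generic set, its views, and the meet lemma. -/

set_option linter.unusedSectionVars false
set_option synthInstance.maxSize 100000

namespace Pool.Agent.MP_62ad46_lc.H29

open Pool.Agent.MP_62ad46_lc.H18 Pool.Agent.MP_6072c5_lc.H80

variable {M : Type} [CommSemiring M] [LinearOrder M] [IsPA M]

instance (priority := 50) {W : M → Prop} [h : D1 W] : Ar1 W := ⟨h.out.ar⟩
instance (priority := 50) {W : M → M → Prop} [h : D2 W] : Ar2 W := ⟨h.out.ar⟩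

theorem red_of_rel {A B : Set M} (T : M → M → M → M → Prop)
    (hT : S1 fun v => T (v 0) (v 1) (v 2) (v 3))
    (sound : ∀ k₁ k₀ a b, Sub a B → Sub b Bᶜ → T k₁ k₀ a b → Sub k₁ A ∧ Sub k₀ Aᶜ)
    (compl : ∀ k₁ k₀, Sub k₁ A → Sub k₀ Aᶜ → ∃ a b, Sub a B ∧ Sub b Bᶜ ∧ T k₁ k₀ a b) :
    Red A B := by
  have : S4 T := ⟨hT⟩
  obtain ⟨e, he⟩ := exists_empty (M := M)
  refine Red.mk (fun k a b => T k e a b) (fun k a b => T e k a b) (by exact S1I.out)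
    (by exact S1I.out) (fun k => ?_) fun k => ?_
  · exact ⟨fun h => compl k e h (sub_empty he _), fun ⟨a, b, ha, hb, h⟩ => (sound _ _ a b ha hb h).1⟩
  · exact ⟨fun h => compl e k (sub_empty he _) h, fun ⟨a, b, ha, hb, h⟩ => (sound _ _ a b ha hb h).2⟩

/-- the conditions `(k₁, k₀)` and `(l₁, l₀)` contradict each other -/
def Clash (k₁ k₀ l₁ l₀ : M) : Prop := (∃ x, mem x k₁ ∧ mem x l₀) ∨ ∃ x, mem x k₀ ∧ mem x l₁

theorem exists_clash {W : Set M} {k₁ k₀ : M} (h : ¬ (Sub k₁ W ∧ Sub k₀ Wᶜ)) :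
    ∃ l₁ l₀, Sub l₁ W ∧ Sub l₀ Wᶜ ∧ Clash k₁ k₀ l₁ l₀ := by
  obtain ⟨e, he⟩ := exists_empty (M := M)
  rw [not_and_or] at h
  simp only [H18.Sub, not_forall] at h
  rcases h with ⟨x, hx, h⟩ | ⟨x, hx, h⟩ <;> obtain ⟨s, hs⟩ := exists_single x
  · exact ⟨e, s, sub_empty he _, fun y hy => (hs y).1 hy ▸ h, Or.inl ⟨x, hx, (hs x).2 rfl⟩⟩
  · exact ⟨s, e, fun y hy => (hs y).1 hy ▸ not_not.1 h, sub_empty he _,
      Or.inr ⟨x, hx, (hs x).2 rfl⟩⟩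

theorem Clash.false {W : Set M} {k₁ k₀ l₁ l₀ : M} (h : Clash k₁ k₀ l₁ l₀)
    (hk : Sub k₁ W ∧ Sub k₀ Wᶜ) (h1 : Sub l₁ W) (h0 : Sub l₀ Wᶜ) : False := by
  rcases h with ⟨x, a, b⟩ | ⟨x, a, b⟩
  · exact h0 x b (hk.1 x a)
  · exact hk.2 x a (h1 x b)

theorem Clash.mono {k₁ k₀ l₁ l₀ l₁' l₀' : M} (h : Clash k₁ k₀ l₁ l₀) (e1 : sub l₁ l₁')
    (e0 : sub l₀ l₀') : Clash k₁ k₀ l₁' l₀' :=
  h.imp (fun ⟨x, a, b⟩ => ⟨x, a, e0 x b⟩) fun ⟨x, a, b⟩ => ⟨x, a, e1 x b⟩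

/-- Definition by recursion. -/
theorem exists_rec (R : M → M → M → Prop) (hR : Ar fun v => R (v 0) (v 1) (v 2))
    (tot : ∀ e s, ∃ t, R e s t) (a : M) : ∃ f : M → M, (Ar fun v => v 1 = f (v 0)) ∧ f 0 = a ∧
      ∀ e, R e (f e) (f (e + 1)) := by
  have : Ar3 R := ⟨hR⟩
  obtain ⟨L, hL, Lt, Lu, LR⟩ : ∃ L : M → M → M → Prop, (Ar fun v => L (v 0) (v 1) (v 2)) ∧
      (∀ e s, ∃ t, L e s t) ∧ (∀ e s t t', L e s t → L e s t' → t = t') ∧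
      ∀ e s t, L e s t → R e s t := by
    refine ⟨fun e s t => R e s t ∧ ∀ t', R e s t' → t ≤ t', by exact ArI.out, fun e s => ?_,
      fun e s t t' h h' => le_antisymm (h.2 _ h'.1) (h'.2 _ h.1), fun e s t h => h.1⟩
    obtain ⟨t, ht⟩ := tot e s
    exact exists_least (P := fun t => R e s t) (by exact ArI.out) ht
  have : Ar3 L := ⟨hL⟩
  obtain ⟨F, hF, fix⟩ : ∃ F : M → M → Prop, (Ar fun v => F (v 0) (v 1)) ∧
      ∀ e s, F e s ↔ (e = 0 ∧ s = a) ∨ ∃ j r, e = j + 1 ∧ F j r ∧ L j r s := by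
    refine ⟨fun e s => ∃ d, (∀ i x, mem (pr i x) d → (i = 0 ∧ x = a) ∨
      ∃ j r, i = j + 1 ∧ mem (pr j r) d ∧ L j r x) ∧ mem (pr e s) d, by exact ArI.out,
      fun e s => ⟨?_, fun h => ?_⟩⟩
    · rintro ⟨d, hd, h⟩
      exact (hd e s h).imp id fun ⟨j, r, e1, e2, e3⟩ => ⟨j, r, e1, ⟨d, hd, e2⟩, e3⟩
    · obtain ⟨o, ho⟩ := exists_single (pr e s)
      rcases h with h | ⟨j, r, e1, ⟨d, hd, e2⟩, e3⟩
      · refine ⟨o, fun i x hx => ?_, (ho _).2 rfl⟩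
        obtain ⟨rfl, rfl⟩ := pr_inj.1 ((ho _).1 hx)
        exact Or.inl h
      · obtain ⟨u, hu⟩ := exists_union d o
        refine ⟨u, fun i x hx => ?_, (hu _).2 (Or.inr ((ho _).2 rfl))⟩
        rcases (hu _).1 hx with hx | hx
        · exact (hd i x hx).imp id fun ⟨j, r, e1, e2, e3⟩ => ⟨j, r, e1, (hu _).2 (Or.inl e2), e3⟩
        · obtain ⟨rfl, rfl⟩ := pr_inj.1 ((ho _).1 hx)
          exact Or.inr ⟨j, r, e1, (hu _).2 (Or.inl e2), e3⟩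
  have : Ar2 F := ⟨hF⟩
  have ne : ∀ j : M, j + 1 ≠ 0 := fun j => (lt_of_lt_of_le zero_lt_one le_add_self).ne'
  have f0 : ∀ s, F 0 s ↔ s = a := fun s => by
    rw [fix]
    exact ⟨fun h => h.elim (fun h => h.2) fun ⟨j, _, e, _⟩ => absurd e.symm (ne j),
      fun h => Or.inl ⟨rfl, h⟩⟩
  have f1 : ∀ e s, F (e + 1) s ↔ ∃ r, F e r ∧ L e r s := fun e s => by
    rw [fix]
    refine ⟨fun h => h.elim (fun h => absurd h.1 (ne e)) ?_,
      fun ⟨r, h⟩ => Or.inr ⟨e, r, rfl, h⟩⟩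
    rintro ⟨j, r, e1, h⟩
    obtain rfl := add_right_cancel e1
    exact ⟨r, h⟩
  have ex : ∀ e, ∃ s, F e s ∧ ∀ s', F e s' → s' = s := by
    refine IsPA.ind (fun e => ∃ s, F e s ∧ ∀ s', F e s' → s' = s) (by exact ArI.out)
      ⟨a, (f0 a).2 rfl, fun s' h => (f0 s').1 h⟩ ?_
    rintro e ⟨s, hs, hu⟩
    obtain ⟨t, ht⟩ := Lt e s
    refine ⟨t, (f1 e t).2 ⟨s, hs, ht⟩, fun t' h => ?_⟩
    obtain ⟨r, hr, h⟩ := (f1 e t').1 h
    rw [hu r hr] at h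
    exact Lu _ _ _ _ h ht
  choose f hf hu using ex
  refine ⟨f, hF.congr fun v => ⟨fun h => hu _ _ h, fun h => h ▸ hf _⟩, (f0 _).1 (hf 0), fun e => ?_⟩
  obtain ⟨r, hr, h⟩ := (f1 e _).1 (hf (e + 1))
  rw [hu e r hr] at h
  exact LR _ _ _ h

/-- `G` meets or avoids every `Σ₁` set of strings. -/
def Gen (G : Set M) : Prop :=
  ∀ S : M → M → Prop, (S1 fun v => S (v 0) (v 1)) →
    (∃ m h, (∀ x, x < m → (mem x h ↔ x ∈ G)) ∧ S m h) ∨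
      ∃ m₀, ∀ m h, m₀ ≤ m → (∀ x, x < m₀ → (mem x h ↔ x ∈ G)) → ¬ S m h

theorem exists_gen : ∃ G : Set M, (Ar fun v => v 0 ∈ G) ∧ Gen G := by
  obtain ⟨V, hV, HV⟩ := exists_univ2 (M := M)
  have : Ar3 V := ⟨hV.ar⟩
  obtain ⟨f, hf, f0, f1⟩ := exists_rec (M := M) (fun e s t => ∀ m h, s = pr m h →
    ∃ m' h', t = pr m' h' ∧ m < m' ∧ (∀ x, x < m → (mem x h' ↔ mem x h)) ∧
      (V e m' h' ∨ ¬ ∃ m'' h'', m < m'' ∧ (∀ x, x < m → (mem x h'' ↔ mem x h)) ∧ V e m'' h''))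
    (by exact ArI.out) (fun e s => by
      by_cases hs : ∃ m h, s = pr m h
      · obtain ⟨m, h, rfl⟩ := hs
        by_cases hv : ∃ m'' h'', m < m'' ∧ (∀ x, x < m → (mem x h'' ↔ mem x h)) ∧ V e m'' h''
        · obtain ⟨m', h', e1, e2, e3⟩ := hv
          refine ⟨pr m' h', fun m h e => ?_⟩
          obtain ⟨rfl, rfl⟩ := pr_inj.1 e
          exact ⟨m', h', rfl, e1, e2, Or.inl e3⟩
        · refine ⟨pr (m + 1) h, fun m h e => ?_⟩
          obtain ⟨rfl, rfl⟩ := pr_inj.1 e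
          exact ⟨_, _, rfl, lt_add_one _, fun _ _ => Iff.rfl, Or.inr hv⟩
      · exact ⟨0, fun m h e => absurd ⟨m, h, e⟩ hs⟩) (pr 0 0)
  obtain ⟨F, hF, eF⟩ : ∃ F : M → M → Prop, (Ar fun v => F (v 0) (v 1)) ∧ ∀ e s, F e s ↔ s = f e :=
    ⟨fun e s => s = f e, hf, fun _ _ => Iff.rfl⟩
  have : Ar2 F := ⟨hF⟩
  have ex : ∀ e, ∃ m h, F e (pr m h) ∧ e ≤ m := by
    refine IsPA.ind (fun e => ∃ m h, F e (pr m h) ∧ e ≤ m) (by exact ArI.out)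
      ⟨0, 0, (eF _ _).2 f0.symm, le_rfl⟩ ?_
    rintro e ⟨m, h, h1, h2⟩
    obtain ⟨m', h', e1, e2, -⟩ := f1 e m h ((eF _ _).1 h1).symm
    exact ⟨m', h', (eF _ _).2 e1.symm, succ_le_of_lt (h2.trans_lt e2)⟩
  choose m h hmh hle using ex
  have hf' : ∀ e, f e = pr (m e) (h e) := fun e => ((eF _ _).1 (hmh e)).symm
  have step : ∀ e, m e < m (e + 1) ∧ (∀ x, x < m e → (mem x (h (e + 1)) ↔ mem x (h e))) ∧
      (V e (m (e + 1)) (h (e + 1)) ∨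
        ¬ ∃ m'' h'', m e < m'' ∧ (∀ x, x < m e → (mem x h'' ↔ mem x (h e))) ∧ V e m'' h'') := by
    intro e
    obtain ⟨m', h', e1, e2⟩ := f1 e _ _ (hf' e)
    obtain ⟨rfl, rfl⟩ := pr_inj.1 ((hf' _).symm.trans e1)
    exact e2
  have coh : ∀ e d, m e ≤ m (e + d) ∧ ∀ x, x < m e → (mem x (h (e + d)) ↔ mem x (h e)) := by
    intro e d
    have := IsPA.ind (fun d => ∀ m' h', F (e + d) (pr m' h') →
      m e ≤ m' ∧ ∀ x, x < m e → (mem x h' ↔ mem x (h e))) (by exact ArI.out) (fun m' h' e1 => by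
        rw [add_zero, eF, hf'] at e1
        obtain ⟨rfl, rfl⟩ := pr_inj.1 e1
        exact ⟨le_rfl, fun _ _ => Iff.rfl⟩) (fun d ih m' h' e1 => by
        rw [← add_assoc, eF, hf'] at e1
        obtain ⟨rfl, rfl⟩ := pr_inj.1 e1
        obtain ⟨i1, i2⟩ := ih _ _ (hmh _)
        exact ⟨i1.trans (step _).1.le,
          fun x hx => ((step _).2.1 x (hx.trans_le i1)).trans (i2 x hx)⟩) d
    exact this _ _ (hmh _)
  have str : ∀ e x, x < m e → (mem x (h e) ↔ mem x (h (x + 1))) := by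
    intro e x hx
    rcases le_total e (x + 1) with h1 | h1
    · obtain ⟨d, hd⟩ := IsPA.sub _ _ h1
      rw [← hd]
      exact ((coh e d).2 x hx).symm
    · obtain ⟨d, rfl⟩ := IsPA.sub _ _ h1
      exact (coh (x + 1) d).2 x ((lt_add_one x).trans_le (hle _))
  refine ⟨{x | mem x (h (x + 1))}, Ar.congr (P := fun v => ∃ m' h', F (v 0 + 1) (pr m' h') ∧
    mem (v 0) h') (by exact ArI.out) fun v => ⟨?_, fun hv => ⟨_, _, hmh _, hv⟩⟩, fun S hS => ?_⟩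
  · rintro ⟨m', h', e1, e2⟩
    rw [eF, hf'] at e1
    obtain ⟨rfl, rfl⟩ := pr_inj.1 e1
    exact e2
  · obtain ⟨e, he⟩ := HV S hS
    rcases (step e).2.2 with hv | hv
    · exact Or.inl ⟨_, _, str (e + 1), (he _ _).2 hv⟩
    · refine Or.inr ⟨m e + 1, fun m' h' h1 h2 h3 => hv ⟨m', h', lt_of_lt_of_le (lt_add_one _) h1,
        fun x hx => (h2 x (hx.trans (lt_add_one _))).trans (str e x hx).symm, (he _ _).1 h3⟩⟩

theorem exists_init {B : Set M} (hB : Ar fun v => v 0 ∈ B) (n : M) :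
    ∃ a, ∀ x, mem x a ↔ x < n ∧ x ∈ B := compr (P := fun x => x ∈ B) hB n

theorem exists_init' {B : Set M} (hB : Ar fun v => v 0 ∈ B) (n : M) :
    ∃ a, ∀ x, mem x a ↔ x < n ∧ x ∉ B := compr (P := fun x => x ∉ B) hB.not n

theorem dir_of_ar (hS : Sat (Cardinal.aleph 1) M) {B : Set M} (hB : Ar fun v => v 0 ∈ B) :
    Dir B := by
  intro a b ha hb
  obtain ⟨da, hda⟩ := hS.bound a
  obtain ⟨db, hdb⟩ := hS.bound b
  obtain ⟨a', ha'⟩ := exists_init hB da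
  obtain ⟨b', hb'⟩ := exists_init' hB db
  exact ⟨a', b', fun x hx => ((ha' x).1 hx).2, fun x hx => ((hb' x).1 hx).2,
    fun n x hx => (ha' x).2 ⟨(lt_of_mem hx).trans (hda n), ha n x hx⟩,
    fun n x hx => (hb' x).2 ⟨(lt_of_mem hx).trans (hdb n), hb n x hx⟩⟩

/-- a bound for the use of the truth-table reductions -/
def bd (x : M) : M := pr 1 (pr (x + 1) x)

instance (priority := 350) {s : (ℕ → M) → M} [a : TmI s] : TmI fun v => bd (s v) :=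
  ⟨Tm.pr (Tm.const 1) (Tm.pr (Tm.add a.out (Tm.const 1)) a.out)⟩

theorem bd_mono {x y : M} (h : x ≤ y) : bd x ≤ bd y :=
  pr_mono le_rfl (pr_mono (add_le_add_left h 1) h)

theorem pr1_le_bd (x : M) : pr 1 x ≤ bd x := pr_mono le_rfl (le_pr_right _ _)
theorem pr0_le_bd (x : M) : pr 0 x ≤ bd x := pr_mono zero_le_one (le_pr_right _ _)
theorem le_bd (x : M) : x ≤ bd x := (le_pr_right _ _).trans (pr1_le_bd x)

theorem red_of_tt {A B : Set M} (hB : Ar fun v => v 0 ∈ B) (φ : M → M → Prop)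
    (hφ : D0 fun v => φ (v 0) (v 1))
    (H : ∀ x h, (∀ y, y ≤ bd x → (mem y h ↔ y ∈ B)) → (x ∈ A ↔ φ x h)) : Red A B := by
  have : D2 φ := ⟨hφ⟩
  refine red_of_rel (fun k₁ k₀ a b =>
    (∀ x, mem x k₁ → (∀ y, y ≤ bd x → mem y a ∨ mem y b) ∧ φ x a) ∧
    ∀ x, mem x k₀ → (∀ y, y ≤ bd x → mem y a ∨ mem y b) ∧ ¬ φ x a) (by exact S1I.out) ?_ ?_
  · rintro k₁ k₀ a b ha hb ⟨h1, h0⟩
    have key : ∀ x, (∀ y, y ≤ bd x → mem y a ∨ mem y b) → (x ∈ A ↔ φ x a) := fun x hx =>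
      H x a fun y hy => ⟨ha y, fun h => (hx y hy).resolve_right fun h' => hb y h' h⟩
    exact ⟨fun x hx => (key x (h1 x hx).1).2 (h1 x hx).2,
      fun x hx h => (h0 x hx).2 ((key x (h0 x hx).1).1 h)⟩
  · intro k₁ k₀ h1 h0
    obtain ⟨a, ha⟩ := exists_init hB (bd (k₁ + k₀) + 1)
    obtain ⟨b, hb⟩ := exists_init' hB (bd (k₁ + k₀) + 1)
    have key : ∀ x, x ≤ k₁ + k₀ → (∀ y, y ≤ bd x → mem y a ∨ mem y b) ∧ (x ∈ A ↔ φ x a) := by
      intro x hx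
      have hy : ∀ y, y ≤ bd x → y < bd (k₁ + k₀) + 1 := fun y hy =>
        lt_succ_iff.2 (hy.trans (bd_mono hx))
      refine ⟨fun y h => ?_, H x a fun y h => (ha y).trans ⟨fun h => h.2, fun h' => ⟨hy y h, h'⟩⟩⟩
      by_cases h' : y ∈ B
      · exact Or.inl ((ha y).2 ⟨hy y h, h'⟩)
      · exact Or.inr ((hb y).2 ⟨hy y h, h'⟩)
    refine ⟨a, b, fun x hx => ((ha x).1 hx).2, fun x hx => ((hb x).1 hx).2, fun x hx => ?_,
      fun x hx => ?_⟩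
    · have := key x ((lt_of_mem hx).le.trans le_self_add)
      exact ⟨this.1, this.2.1 (h1 x hx)⟩
    · have := key x ((lt_of_mem hx).le.trans le_add_self)
      exact ⟨this.1, fun h => h0 x hx (this.2.2 h)⟩

/-- the part of `G` on `D` -/
def cut (G : Set M) (D : M → Prop) : Set M := {x | x ∈ G ∧ D x}

/-- the differences of `G` along the matching `π` -/
def bx (π : M → M → Prop) (G : Set M) : Set M := {x | ∃ y, π x y ∧ ¬ (x ∈ G ↔ y ∈ G)}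

theorem ar_cut {G : Set M} (hG : Ar fun v => v 0 ∈ G) (D : M → Prop) [h : D1 D] :
    Ar fun v => v 0 ∈ cut G D := hG.and h.out.ar

theorem ar_bx {G : Set M} (hG : Ar fun v => v 0 ∈ G) (π : M → M → Prop) [D2 π] :
    Ar fun v => v 0 ∈ bx π G := by
  obtain ⟨P, hP, e⟩ : ∃ P : M → Prop, (Ar fun v => P (v 0)) ∧ ∀ x, x ∈ G ↔ P x :=
    ⟨fun x => x ∈ G, hG, fun _ => Iff.rfl⟩
  have : Ar1 P := ⟨hP⟩
  exact Ar.congr (P := fun v => ∃ y, π (v 0) y ∧ ¬ (P (v 0) ↔ P y)) (by exact ArI.out)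
    fun v => by simp only [bx, Set.mem_ofPred_eq, e]

theorem ar_join {X Y : Set M} (hX : Ar fun v => v 0 ∈ X) (hY : Ar fun v => v 0 ∈ Y) :
    Ar fun v => v 0 ∈ join X Y := by
  obtain ⟨P, hP, e⟩ : ∃ P : M → Prop, (Ar fun v => P (v 0)) ∧ ∀ x, x ∈ X ↔ P x :=
    ⟨fun x => x ∈ X, hX, fun _ => Iff.rfl⟩
  obtain ⟨Q, hQ, e'⟩ : ∃ Q : M → Prop, (Ar fun v => Q (v 0)) ∧ ∀ x, x ∈ Y ↔ Q x :=
    ⟨fun x => x ∈ Y, hY, fun _ => Iff.rfl⟩
  have : Ar1 P := ⟨hP⟩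
  have : Ar1 Q := ⟨hQ⟩
  exact Ar.congr (P := fun v => (∃ x, P x ∧ v 0 = pr 0 x) ∨ ∃ y, Q y ∧ v 0 = pr 1 y)
    (by exact ArI.out) fun v => by simp only [join, Set.mem_ofPred_eq, e, e']

theorem prop4 {X Y : Prop} : ¬ (X ↔ ¬ (X ↔ Y)) ↔ Y := by tauto

section
variable {G : Set M} (hG : Ar fun v => v 0 ∈ G)
include hG

theorem red_cut (T D : M → Prop) [D1 T] [D1 D] (h : ∀ x, T x → D x) :
    Red (cut G T) (cut G D) :=
  red_of_tt (ar_cut hG D) (fun x h => T x ∧ mem x h) (by exact D0I.out) fun x k hk =>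
    ⟨fun hx => ⟨hx.2, (hk x (le_bd x)).2 ⟨hx.1, h x hx.2⟩⟩,
      fun hx => ⟨((hk x (le_bd x)).1 hx.2).1, hx.1⟩⟩

theorem red_union (T D E : M → Prop) [D1 T] [D1 D] [D1 E] (h : ∀ x, T x → D x ∨ E x) :
    Red (cut G T) (join (cut G D) (cut G E)) := by
  refine red_of_tt (ar_join (ar_cut hG D) (ar_cut hG E))
    (fun x h => T x ∧ (mem (pr 0 x) h ∨ mem (pr 1 x) h)) (by exact D0I.out) fun x k hk => ?_
  rw [hk _ (pr0_le_bd x), hk _ (pr1_le_bd x), pr0_mem_join, pr1_mem_join]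
  exact ⟨fun hx => ⟨hx.2, (h x hx.2).imp (fun h => ⟨hx.1, h⟩) fun h => ⟨hx.1, h⟩⟩,
    fun hx => ⟨hx.2.elim (fun h => h.1) fun h => h.1, hx.1⟩⟩

theorem red_match (T D : M → Prop) (π : M → M → Prop) [D1 T] [D1 D] [D2 π]
    (hπ : ∀ x y y', π x y → π x y' → y = y')
    (h : ∀ y, T y → ∃ x, D x ∧ π x y ∧ pr 1 x ≤ bd y) :
    Red (cut G T) (join (cut G D) (bx π G)) := by
  refine red_of_tt (ar_join (ar_cut hG D) (ar_bx hG π))
    (fun y h => T y ∧ ∃ x, x ≤ bd y ∧ D x ∧ π x y ∧ pr 1 x ≤ bd y ∧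
      ¬ (mem (pr 0 x) h ↔ mem (pr 1 x) h)) (by exact D0I.out) fun y k hk => ?_
  have key : ∀ x, D x → π x y → pr 1 x ≤ bd y →
      (¬ (mem (pr 0 x) k ↔ mem (pr 1 x) k) ↔ y ∈ G) := by
    intro x h1 h2 h3
    rw [hk _ h3, hk _ ((pr_mono zero_le_one le_rfl).trans h3), pr0_mem_join, pr1_mem_join]
    have e1 : x ∈ cut G D ↔ x ∈ G := ⟨fun h => h.1, fun h => ⟨h, h1⟩⟩
    have e2 : x ∈ bx π G ↔ ¬ (x ∈ G ↔ y ∈ G) :=
      ⟨fun ⟨y', a, b⟩ => hπ x y' y a h2 ▸ b, fun h => ⟨y, h2, h⟩⟩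
    rw [e1, e2]
    exact prop4
  constructor
  · intro hy
    obtain ⟨x, h1, h2, h3⟩ := h y hy.2
    exact ⟨hy.2, x, (le_pr_right _ _).trans h3, h1, h2, h3, (key x h1 h2 h3).2 hy.1⟩
  · rintro ⟨hy, x, -, h1, h2, h3, h4⟩
    exact ⟨(key x h1 h2 h3).1 h4, hy⟩

end

/-- the view of the string `h` at `z` -/
def vA (D : M → Prop) (π : M → M → Prop) (z h : M) : Prop :=
  (∃ x, z = pr 0 x ∧ mem x h ∧ D x) ∨
    ∃ x, z = pr 1 x ∧ ∃ y, y ≤ bd x ∧ π x y ∧ ¬ (mem x h ↔ mem y h)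

theorem vA_iff {D : M → Prop} {π : M → M → Prop} (hπ : ∀ x y, π x y → y ≤ bd x) {G : Set M}
    {z h : M} (e : ∀ y, y ≤ bd z → (mem y h ↔ y ∈ G)) :
    vA D π z h ↔ z ∈ join (cut G D) (bx π G) := by
  constructor
  · rintro (⟨x, rfl, h1, h2⟩ | ⟨x, rfl, y, h1, h2, h3⟩)
    · exact pr0_mem_join.2 ⟨(e x ((le_pr_right _ _).trans (le_bd _))).1 h1, h2⟩
    · refine pr1_mem_join.2 ⟨y, h2, ?_⟩
      rwa [← e x ((le_pr_right _ _).trans (le_bd _)), ← e y (h1.trans (bd_mono (le_pr_right _ _)))]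
  · rintro (⟨x, hx, rfl⟩ | ⟨x, ⟨y, h1, h2⟩, rfl⟩)
    · exact Or.inl ⟨x, rfl, (e x ((le_pr_right _ _).trans (le_bd _))).2 hx.1, hx.2⟩
    · refine Or.inr ⟨x, rfl, y, hπ x y h1, h1, ?_⟩
      rwa [e x ((le_pr_right _ _).trans (le_bd _)),
        e y ((hπ x y h1).trans (bd_mono (le_pr_right _ _)))]

theorem prop1 {L E G X : Prop} (hL : L) (hE : E) : (L ∧ (E ∧ G ∨ ¬ E ∧ X)) ↔ G := by tauto

theorem prop2 {L E G H Q : Prop} (hL : L) (hE : ¬ E) (hQ : ¬ Q) :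
    (L ∧ (E ∧ G ∨ ¬ E ∧ ¬ (H ↔ Q))) ↔ H := by tauto

theorem prop3 {L E G H Y Z : Prop} (hL : L) (hE : ¬ E) :
    ¬ ((L ∧ (E ∧ G ∨ ¬ E ∧ ¬ (H ↔ ¬ (Y ↔ Z)))) ↔ Z) ↔ ¬ (H ↔ Y) := by tauto

/-- The meet lemma. -/
theorem meet {G W : Set M} (hG : Ar fun v => v 0 ∈ G) (gen : Gen G) (D E D' : M → Prop)
    (π : M → M → Prop) [D1 D] [D1 E] [D1 D'] [D2 π]
    (hπ : ∀ x y, π x y → ¬ E x ∧ E y ∧ y ≤ bd x) (hf : ∀ x y y', π x y → π x y' → y = y')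
    (h1 : ∀ y, D y → E y → D' y) (h2 : ∀ x y, D x → π x y → D' y)
    (rA : Red W (join (cut G D) (bx π G))) (rB : Red W (cut G E)) : Red W (cut G D') := by
  obtain ⟨Φ, hΦ⟩ := rA.conf
  obtain ⟨Ψ, hΨ⟩ := rB.conf
  have : S4 Φ := ⟨hΦ.s1⟩
  have : S4 Ψ := ⟨hΨ.s1⟩
  have : D2 (vA D π) := ⟨by unfold vA; exact D0I.out⟩
  have hb : ∀ x y, π x y → y ≤ bd x := fun x y h => (hπ x y h).2.2
  rcases gen (fun m h => ∃ k₁ k₀ a b l₁ l₀ a' b', Φ k₁ k₀ a b ∧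
      (∀ z, mem z a → bd z < m ∧ vA D π z h) ∧ (∀ z, mem z b → bd z < m ∧ ¬ vA D π z h) ∧
      Ψ l₁ l₀ a' b' ∧ (∀ z, mem z a' → z < m ∧ mem z h ∧ E z) ∧
      (∀ z, mem z b' → z < m ∧ ¬ (mem z h ∧ E z)) ∧ Clash k₁ k₀ l₁ l₀)
      (by unfold Clash; exact S1I.out) with
    ⟨m, h, e, k₁, k₀, a, b, l₁, l₀, a', b', p1, p2, p3, p4, p5, p6, p7⟩ | ⟨m₀, hm₀⟩
  · have key : ∀ z, bd z < m → (vA D π z h ↔ z ∈ join (cut G D) (bx π G)) := fun z hz =>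
      vA_iff hb fun y hy => e y (hy.trans_lt hz)
    have s1 := hΦ.sound (fun z hz => (key z (p2 z hz).1).1 (p2 z hz).2)
      (fun z hz h => (p3 z hz).2 ((key z (p3 z hz).1).2 h)) p1
    have s2 := hΨ.sound (fun z hz => ⟨(e z (p5 z hz).1).1 (p5 z hz).2.1, (p5 z hz).2.2⟩)
      (fun z hz h => (p6 z hz).2 ⟨(e z (p6 z hz).1).2 h.1, h.2⟩) p4
    exact (p7.false s1 s2.1 s2.2).elim
  obtain ⟨s₀, hs₀⟩ := exists_init hG (bd m₀ + 1)
  refine red_of_rel (fun k₁ k₀ p q => ∃ m h a b, Φ k₁ k₀ a b ∧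
    (∀ z, mem z a → bd z < m ∧ vA D π z h) ∧ (∀ z, mem z b → bd z < m ∧ ¬ vA D π z h) ∧
    (∀ y, y ≤ bd m₀ → (mem y h ↔ mem y s₀)) ∧
    ∀ y, y < m → D' y → (mem y h → mem y p) ∧ (¬ mem y h → mem y q)) (by exact S1I.out) ?_ ?_
  · rintro k₁ k₀ p q hp hq ⟨m, h, a, b, p1, p2, p3, p4, p5⟩
    by_contra hn
    obtain ⟨l₁, l₀, t₁, t₀, hc⟩ := exists_clash hn
    obtain ⟨a', b', ha', hb', p6⟩ := hΨ.compl t₁ t₀
    have agD : ∀ y, y < m → D' y → (mem y h ↔ y ∈ G) := fun y hy hd =>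
      ⟨fun h => (hp y ((p5 y hy hd).1 h)).1,
        fun h => by_contra fun h' => hq y ((p5 y hy hd).2 h') ⟨h, hd⟩⟩
    have ag0 : ∀ y, y ≤ bd m₀ → (mem y h ↔ y ∈ G) := fun y hy =>
      (p4 y hy).trans ((hs₀ y).trans ⟨fun h => h.2, fun h => ⟨lt_succ_iff.2 hy, h⟩⟩)
    obtain ⟨P, hP, eP⟩ : ∃ P : M → Prop, (Ar fun v => P (v 0)) ∧ ∀ x, x ∈ G ↔ P x :=
      ⟨fun x => x ∈ G, hG, fun _ => Iff.rfl⟩
    have : Ar1 P := ⟨hP⟩
    obtain ⟨g, hg⟩ := compr (P := fun y => (E y ∧ P y) ∨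
      (¬ E y ∧ ¬ (mem y h ↔ ∃ y', π y y' ∧ ¬ (mem y' h ↔ P y')))) (by exact ArI.out)
      (m + m₀ + (a' + b'))
    simp only [← eP] at hg
    have l1 : m ≤ m + m₀ + (a' + b') := le_self_add.trans le_self_add
    have l2 : m₀ ≤ m + m₀ + (a' + b') := le_add_self.trans le_self_add
    have gE : ∀ y, y < m + m₀ + (a' + b') → E y → (mem y g ↔ y ∈ G) := fun y hy he => by
      rw [hg]; exact prop1 hy he
    have gN : ∀ y, y < m + m₀ + (a' + b') → ¬ E y → (∀ y', π y y' → (mem y' h ↔ y' ∈ G)) →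
        (mem y g ↔ mem y h) := fun y hy he H => by
      have : ¬ ∃ y', π y y' ∧ ¬ (mem y' h ↔ y' ∈ G) := fun ⟨y', u, w⟩ => w (H y' u)
      rw [hg]; exact prop2 hy he this
    have key : ∀ z, bd z < m → (vA D π z g ↔ vA D π z h) := by
      intro z hz
      refine or_congr (exists_congr fun x => and_congr_right fun e => and_congr_left fun hd => ?_)
        (exists_congr fun x => and_congr_right fun e => exists_congr fun y =>
          and_congr_right fun hy => and_congr_right fun hxy => ?_)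
      · have hx : x ≤ z := e ▸ le_pr_right _ _
        have hxm : x < m := (hx.trans (le_bd z)).trans_lt hz
        by_cases he : E x
        · rw [gE x (hxm.trans_le l1) he, agD x hxm (h1 x hd he)]
        · exact gN x (hxm.trans_le l1) he fun y' u =>
            agD y' (((hb x y' u).trans (bd_mono hx)).trans_lt hz) (h2 x y' hd u)
      · have hx : x ≤ z := e ▸ le_pr_right _ _
        have hxm : x < m := (hx.trans (le_bd z)).trans_lt hz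
        have hym : y < m := (hy.trans (bd_mono hx)).trans_lt hz
        have e2 : (∃ y', π x y' ∧ ¬ (mem y' h ↔ y' ∈ G)) ↔ ¬ (mem y h ↔ y ∈ G) :=
          ⟨fun ⟨y', u, w⟩ => hf x y' y u hxy ▸ w, fun w => ⟨y, hxy, w⟩⟩
        have he := (hπ x y hxy).1
        have hx' := hxm.trans_le l1
        rw [gE y (hym.trans_le l1) (hπ x y hxy).2.1, hg, e2]
        exact prop3 hx' he
    refine hm₀ _ g l2 (fun y hy => ?_) ⟨k₁, k₀, a, b, l₁, l₀, a', b', p1,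
      fun z hz => ⟨(p2 z hz).1.trans_le l1, (key z (p2 z hz).1).2 (p2 z hz).2⟩,
      fun z hz => ⟨(p3 z hz).1.trans_le l1, fun h => (p3 z hz).2 ((key z (p3 z hz).1).1 h)⟩, p6,
      fun z hz => ?_, fun z hz => ?_, hc⟩
    · by_cases he : E y
      · exact gE y (hy.trans_le l2) he
      · exact (gN y (hy.trans_le l2) he fun y' u =>
          ag0 y' ((hb y y' u).trans (bd_mono hy.le))).trans (ag0 y (hy.le.trans (le_bd _)))
    · have : z < m + m₀ + (a' + b') := (lt_of_mem hz).trans_le (le_self_add.trans le_add_self)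
      exact ⟨this, (gE z this (ha' z hz).2).2 (ha' z hz).1, (ha' z hz).2⟩
    · have : z < m + m₀ + (a' + b') := (lt_of_mem hz).trans_le (le_add_self.trans le_add_self)
      exact ⟨this, fun h => hb' z hz ⟨(gE z this h.2).1 h.1, h.2⟩⟩
  · intro k₁ k₀ t₁ t₀
    obtain ⟨a, b, ha, hb', p1⟩ := hΦ.compl t₁ t₀
    obtain ⟨h, hh⟩ := exists_init hG (bd (a + b + m₀) + 1)
    obtain ⟨p, hp⟩ := exists_init (ar_cut hG D') (bd (a + b + m₀) + 1)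
    obtain ⟨q, hq⟩ := exists_init' (ar_cut hG D') (bd (a + b + m₀) + 1)
    have ag : ∀ y, y ≤ bd (a + b + m₀) → (mem y h ↔ y ∈ G) := fun y hy =>
      (hh y).trans ⟨fun h => h.2, fun h => ⟨lt_succ_iff.2 hy, h⟩⟩
    have key : ∀ z, z ≤ a + b → bd z < bd (a + b + m₀) + 1 ∧
        (vA D π z h ↔ z ∈ join (cut G D) (bx π G)) := fun z hz =>
      ⟨lt_succ_iff.2 (bd_mono (hz.trans le_self_add)),
        vA_iff hb fun y hy => ag y (hy.trans (bd_mono (hz.trans le_self_add)))⟩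
    refine ⟨p, q, fun x hx => ((hp x).1 hx).2, fun x hx => ((hq x).1 hx).2,
      bd (a + b + m₀) + 1, h, a, b, p1, fun z hz => ?_, fun z hz => ?_, fun y hy => ?_, fun y hy hd => ⟨fun u => ?_, fun u => ?_⟩⟩
    · have := key z ((lt_of_mem hz).le.trans le_self_add)
      exact ⟨this.1, this.2.2 (ha z hz)⟩
    · have := key z ((lt_of_mem hz).le.trans le_add_self)
      exact ⟨this.1, fun h => hb' z hz (this.2.1 h)⟩
    · rw [ag y (hy.trans (bd_mono le_add_self)), hs₀]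
      exact ⟨fun h => ⟨lt_succ_iff.2 hy, h⟩, fun h => h.2⟩
    · exact (hp y).2 ⟨hy, ((hh y).1 u).2, hd⟩
    · exact (hq y).2 ⟨hy, fun w => u ((hh y).2 ⟨hy, w.1⟩)⟩

/-- Parts of a generic set on disjoint domains form a minimal pair. -/
theorem meet0 {G W : Set M} (hG : Ar fun v => v 0 ∈ G) (gen : Gen G) (D E : M → Prop) [D1 D] [D1 E]
    (h : ∀ y, D y → ¬ E y) (rA : Red W (cut G D)) (rB : Red W (cut G E)) : Red W ∅ := by
  have : D1 fun y : M => y ≠ y := ⟨by exact D0I.out⟩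
  have : D2 fun x _ : M => x ≠ x := ⟨by exact D0I.out⟩
  have := meet hG gen D E (fun y => y ≠ y) (fun x _ => x ≠ x) (fun x _ h => absurd rfl h)
    (fun x _ _ h => absurd rfl h) (fun y a b => absurd b (h y a)) (fun x _ _ h => absurd rfl h)
    (rA.trans (red_join_left _ _)) rB
  have e : cut G (fun y => y ≠ y) = ∅ := Set.eq_empty_of_forall_notMem fun x hx => hx.2 rfl
  rwa [e] at this

/-- An unbounded part of a generic set is not computable. -/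
theorem not_red_empty {G : Set M} (hG : Ar fun v => v 0 ∈ G) (gen : Gen G) (T : M → Prop) [D1 T]
    (hT : ∀ m, ∃ x, m ≤ x ∧ T x) : ¬ Red (cut G T) ∅ := by
  intro h
  obtain ⟨C, hC⟩ := h.conf
  have : S4 C := ⟨hC.s1⟩
  obtain ⟨e, he⟩ := exists_empty (M := M)
  rcases gen (fun m h => ∃ k₁ k₀ a b, C k₁ k₀ a b ∧ (∀ z, mem z a → z ≠ z) ∧
      ∃ x, x < m ∧ T x ∧ ((mem x k₁ ∧ ¬ mem x h) ∨ (mem x k₀ ∧ mem x h))) (by exact S1I.out) with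
    ⟨m, h, e, k₁, k₀, a, b, p1, p2, x, p3, p4, p5⟩ | ⟨m₀, hm₀⟩
  · have := hC.sound (fun z hz => absurd rfl (p2 z hz)) (fun z _ h => h) p1
    rcases p5 with ⟨u, w⟩ | ⟨u, w⟩
    · exact w ((e x p3).2 (this.1 x u).1)
    · exact this.2 x u ⟨(e x p3).1 w, p4⟩
  obtain ⟨x, hx, hT⟩ := hT m₀
  obtain ⟨s, hs⟩ := exists_single x
  obtain ⟨g, hg⟩ := exists_init hG m₀
  by_cases hx' : x ∈ G
  · obtain ⟨a, b, ha, -, hc⟩ := hC.compl (k₁ := s) (k₀ := e)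
      (fun y hy => (hs y).1 hy ▸ ⟨hx', hT⟩) (sub_empty he _)
    exact hm₀ (x + 1) g (hx.trans le_self_add)
      (fun y hy => (hg y).trans ⟨fun h => h.2, fun h => ⟨hy, h⟩⟩)
      ⟨s, e, a, b, hc, fun z hz => (ha z hz).elim, x, lt_add_one x, hT,
        Or.inl ⟨(hs x).2 rfl, fun h => absurd ((hg x).1 h).1 (not_lt.2 hx)⟩⟩
  · obtain ⟨a, b, ha, -, hc⟩ := hC.compl (k₁ := e) (k₀ := s) (sub_empty he _)
      (fun y hy h => hx' ((hs y).1 hy ▸ h.1))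
    obtain ⟨u, hu⟩ := exists_union g s
    refine hm₀ (x + 1) u (hx.trans le_self_add) (fun y hy => (hu y).trans ⟨?_,
      fun h => Or.inl ((hg y).2 ⟨hy, h⟩)⟩) ⟨e, s, a, b, hc, fun z hz => (ha z hz).elim, x,
        lt_add_one x, hT, Or.inr ⟨(hs x).2 rfl, (hu x).2 (Or.inr ((hs x).2 rfl))⟩⟩
    rintro (h | h)
    · exact ((hg y).1 h).2
    · exact absurd ((hs y).1 h ▸ hy) (not_lt.2 hx)

end Pool.Agent.MP_62ad46_lc.H29
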