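import Pool.Agent.MP_62ad46_lc.H29.Generic
import Pool.Agent.MP_62ad46_lc.H18.Exist

/-! A bounded set that is generic for coded families of finite conditions. -/

set_option linter.unusedSectionVars false
set_option synthInstance.maxSize 100000

namespace Pool.Agent.MP_62ad46_lc.H29

open Pool.Agent.MP_62ad46_lc.H18 Pool.Agent.MP_6072c5_lc.H80 Cardinal

instance : IsPA ℕ where
  nonneg := Nat.zero_le
  discrete := fun _ h => h
  sub := fun _ _ h => ⟨_, Nat.add_sub_cancel' h⟩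
  ind := fun _ _ h0 h1 x => Nat.rec h0 h1 x

variable {M : Type} [CommSemiring M] [LinearOrder M] [IsPA M]

theorem pr_cast (a b : ℕ) : ((pr a b : ℕ) : M) = pr (a : M) b := by simp [pr]

theorem mem_cast (x k : ℕ) : mem (x : M) (k : M) ↔ mem x k := by
  constructor
  · rintro ⟨c, d, n, e, h1, h2⟩
    obtain ⟨c, -, rfl⟩ := exists_nat_of_le (n := k) (x := c) (e ▸ le_pr_left _ _)
    obtain ⟨d, -, rfl⟩ := exists_nat_of_le (n := k) (x := d)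
      (e ▸ (le_pr_left _ _).trans (le_pr_right _ _))
    obtain ⟨n, -, rfl⟩ := exists_nat_of_le (n := k) (x := n)
      (e ▸ (le_pr_right _ _).trans (le_pr_right _ _))
    rw [← pr_cast, ← pr_cast] at e
    refine ⟨c, d, n, by exact_mod_cast e, by exact_mod_cast h1, (nat_dvd_iff (M := M)).1 ?_⟩
    push_cast
    exact h2
  · rintro ⟨c, d, n, rfl, h1, h2⟩
    refine ⟨c, d, n, by rw [pr_cast, pr_cast], by exact_mod_cast h1, ?_⟩
    have := (nat_dvd_iff (M := M)).2 h2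
    push_cast at this
    exact this

theorem std_code (n : ℕ) {k : M} (hk : ∀ x, mem x k → x ≤ n) :
    ∃ k' : ℕ, ∀ x, mem x k ↔ mem x (k' : M) := by
  obtain ⟨k', hk'⟩ := exists_code_of_finite (M := ℕ)
    ((Set.finite_Iic n).inter_of_left {x : ℕ | mem (x : M) k})
  refine ⟨k', fun x => ⟨fun h => ?_, fun h => ?_⟩⟩
  · obtain ⟨m, hm, rfl⟩ := exists_nat_of_le (hk x h)
    exact (mem_cast _ _).2 ((hk' m).2 ⟨hm, h⟩)
  · obtain ⟨m, -, rfl⟩ := exists_nat_of_lt (lt_of_mem h)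
    exact ((hk' m).1 ((mem_cast _ _).1 h)).2

/-- `c ⊆ [0, ν]` extends a member of every infinite coded family of finite partial functions on
`[0, ν]` with disjoint domains. -/
def SG (ν : M) (c : Set M) : Prop :=
  ν ∉ omega M ∧ (∀ x ∈ c, x ≤ ν) ∧ ∀ N p₀ p₁, Fam N p₀ p₁ → N ≤ ν →
    (∀ z, mem z p₀ ∨ mem z p₁ → ∃ i x, z = pr i x ∧ i ≤ ν ∧ x ≤ ν) →
    ∃ i, i ≤ N ∧ (∀ x, mem (pr i x) p₀ → x ∈ c) ∧ ∀ x, mem (pr i x) p₁ → x ∉ c

theorem exists_sg (hS : Sat (aleph 1) M) : ∃ (ν : M) (c : Set M), SG ν c := by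
  obtain ⟨a, ha⟩ := hS.nonstd
  obtain ⟨κ, ⟨d, hd, rfl⟩, hmin⟩ := Cardinal.lt_wf.has_min
    {κ | ∃ d ∉ omega M, κ = #{x : M | x ≤ d}} ⟨_, a, ha, rfl⟩
  obtain ⟨ν, hν, H⟩ := overspill hS.nonstd (P := fun n => n ≤ d ∧ ∀ k, (∀ x, mem x k → x ≤ pr n n) →
    ∃ k', k' ≤ d ∧ ∀ x, mem x k ↔ mem x k') (by exact ArI.out) fun n =>
      ⟨le_of_nonstd (nat_std n) hd, fun k hk => by
        obtain ⟨k', hk'⟩ := std_code (pr n n) (k := k) (by rwa [pr_cast])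
        exact ⟨k', le_of_nonstd (nat_std _) hd, hk'⟩⟩
  obtain ⟨hνd, H⟩ := H ν le_rfl
  let α := {x : M | x ≤ d}
  have h0 : ℵ₀ < #α := aleph0_lt_continuum.trans_le (continuum_le hS hd)
  let ι := {r : α × α × α // Fam r.1.1 r.2.1.1 r.2.2.1}
  have hι : #ι ≤ #α := by
    refine (mk_subtype_le _).trans (le_of_eq ?_)
    simp only [mk_prod, lift_id, mul_eq_self h0.le]
  obtain ⟨f, hf, hd'⟩ := exists_disjoint_choice h0 hι (fun r => {x : α | x.1 ≤ r.1.1.1})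
    (fun r => (not_lt.1 (hmin _ ⟨_, r.2.1, rfl⟩)).trans (mk_le_of_injective
      (f := fun x : {x : M | x ≤ r.1.1.1} => (⟨⟨x.1, le_trans x.2 r.1.1.2⟩, x.2⟩ :
        {x : α | x.1 ≤ r.1.1.1})) fun x y e =>
          Subtype.ext (congrArg (fun z : {x : α | x.1 ≤ r.1.1.1} => z.1.1) e)))
    (fun r i => Subtype.val ⁻¹' supp r.1.2.1.1 r.1.2.2.1 i.1)
    (fun r i hi => (r.2.2.1 i.1 hi).preimage Subtype.val_injective.injOn)
    fun r i hi j hj x hx hx' => Subtype.ext (r.2.2.2.2 i.1 hi j.1 hj x.1 hx hx')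
  refine ⟨ν, {x | x ≤ ν ∧ ∃ r : ι, mem (pr (f r).1 x) r.1.2.1.1}, hν, fun x hx => hx.1,
    fun N p₀ p₁ hF hN hb => ?_⟩
  have hb' : ∀ z, mem z p₀ ∨ mem z p₁ → z ≤ pr ν ν := fun z hz => by
    obtain ⟨i, x, rfl, h1, h2⟩ := hb z hz
    exact pr_mono h1 h2
  have hb'' : ∀ i x, mem (pr i x) p₀ ∨ mem (pr i x) p₁ → x ≤ ν := fun i x hz => by
    obtain ⟨i, x, e, -, h2⟩ := hb _ hz
    exact (pr_inj.1 e).2 ▸ h2
  obtain ⟨q₀, l₀, e₀⟩ := H p₀ fun x hx => hb' x (Or.inl hx)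
  obtain ⟨q₁, l₁, e₁⟩ := H p₁ fun x hx => hb' x (Or.inr hx)
  have es : ∀ i, supp q₀ q₁ i = supp p₀ p₁ i := fun i => by
    ext x; simp only [supp, Set.mem_ofPred_eq, e₀, e₁]
  have hF' : Fam N q₀ q₁ := ⟨hF.1, fun i hi => es i ▸ hF.2.1 i hi,
    fun i hi x => by rw [← e₀, ← e₁]; exact hF.2.2.1 i hi x,
    fun i hi j hj x => by rw [es, es]; exact hF.2.2.2 i hi j hj x⟩
  let r : ι := ⟨(⟨N, hN.trans hνd⟩, ⟨q₀, l₀⟩, ⟨q₁, l₁⟩), hF'⟩
  refine ⟨(f r).1, hf r, fun x hx => ⟨hb'' _ _ (Or.inl hx), r, (e₀ _).1 hx⟩, ?_⟩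
  rintro x hx ⟨h1, s, hs⟩
  obtain rfl := hd' r s ⟨x, h1.trans hνd⟩ (Or.inr ((e₁ _).1 hx)) (Or.inl hs)
  exact hF'.2.2.1 _ (hf r) x hs ((e₁ _).1 hx)

theorem SG.meet {ν : M} {c : Set M} (h : SG ν c) {N : M} (hN : N ∉ omega M) (A B : M → M → Prop)
    (hA : Ar fun v => A (v 0) (v 1)) (hB : Ar fun v => B (v 0) (v 1))
    (h1 : ∀ i, i ≤ N → {x | A i x ∨ B i x}.Finite) (h2 : ∀ i, i ≤ N → ∀ x, A i x ∨ B i x → x ≤ ν)
    (h3 : ∀ i, i ≤ N → ∀ x, A i x → ¬ B i x)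
    (h4 : ∀ i, i ≤ N → ∀ j, j ≤ N → ∀ x, A i x ∨ B i x → A j x ∨ B j x → i = j) :
    ∃ i, i ≤ N ∧ (∀ x, A i x → x ∈ c) ∧ ∀ x, B i x → x ∉ c := by
  have : Ar2 A := ⟨hA⟩
  have : Ar2 B := ⟨hB⟩
  obtain ⟨N', l1, l2, hN'⟩ : ∃ N', N' ≤ N ∧ N' ≤ ν ∧ N' ∉ omega M := by
    rcases le_total N ν with h' | h'
    · exact ⟨N, le_rfl, h', hN⟩
    · exact ⟨ν, h', le_rfl, h.1⟩
  obtain ⟨p₀, hp₀⟩ := compr (P := fun z => ∃ i x, z = pr i x ∧ i ≤ N' ∧ A i x) (by exact ArI.out)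
    (pr ν ν + 1)
  obtain ⟨p₁, hp₁⟩ := compr (P := fun z => ∃ i x, z = pr i x ∧ i ≤ N' ∧ B i x) (by exact ArI.out)
    (pr ν ν + 1)
  have e₀ : ∀ i, i ≤ N' → ∀ x, mem (pr i x) p₀ ↔ A i x := fun i hi x => by
    rw [hp₀]
    refine ⟨?_, fun h => ⟨lt_succ_iff.2 (pr_mono (hi.trans l2) (h2 i (hi.trans l1) x (Or.inl h))),
      i, x, rfl, hi, h⟩⟩
    rintro ⟨-, i, x, e, -, h⟩
    obtain ⟨rfl, rfl⟩ := pr_inj.1 e
    exact h
  have e₁ : ∀ i, i ≤ N' → ∀ x, mem (pr i x) p₁ ↔ B i x := fun i hi x => by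
    rw [hp₁]
    refine ⟨?_, fun h => ⟨lt_succ_iff.2 (pr_mono (hi.trans l2) (h2 i (hi.trans l1) x (Or.inr h))),
      i, x, rfl, hi, h⟩⟩
    rintro ⟨-, i, x, e, -, h⟩
    obtain ⟨rfl, rfl⟩ := pr_inj.1 e
    exact h
  have es : ∀ i, i ≤ N' → supp p₀ p₁ i = {x | A i x ∨ B i x} := fun i hi => by
    ext x; simp only [supp, Set.mem_ofPred_eq, e₀ i hi, e₁ i hi]
  obtain ⟨i, hi, t0, t1⟩ := h.2.2 N' p₀ p₁ ⟨hN', fun i hi => es i hi ▸ h1 i (hi.trans l1),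
    fun i hi x => by rw [e₀ i hi, e₁ i hi]; exact h3 i (hi.trans l1) x,
    fun i hi j hj x => by rw [es i hi, es j hj]; exact h4 i (hi.trans l1) j (hj.trans l1) x⟩ l2
    fun z hz => by
      rcases hz with hz | hz
      · obtain ⟨-, i, x, e, hi, h⟩ := (hp₀ z).1 hz
        exact ⟨i, x, e, hi.trans l2, h2 i (hi.trans l1) x (Or.inl h)⟩
      · obtain ⟨-, i, x, e, hi, h⟩ := (hp₁ z).1 hz
        exact ⟨i, x, e, hi.trans l2, h2 i (hi.trans l1) x (Or.inr h)⟩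
  exact ⟨i, hi.trans l1, fun x hx => t0 x ((e₀ i hi x).2 hx), fun x hx => t1 x ((e₁ i hi x).2 hx)⟩

/-- the condition `(a, b)` has at most `j` points -/
def Sm (j : ℕ) (a b : M) : Prop := ∃ F : Finset M, F.card ≤ j ∧ ∀ x, mem x a ∨ mem x b → x ∈ F

theorem exists_diff (a r : M) : ∃ k, ∀ x, mem x k ↔ mem x a ∧ ¬ mem x r := by
  obtain ⟨k, hk⟩ := compr (P := fun x => mem x a ∧ ¬ mem x r) (by exact ArI.out) a
  exact ⟨k, fun x => (hk x).trans ⟨fun h => h.2, fun h => ⟨lt_of_mem h.1, h⟩⟩⟩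

theorem sm_s1 : ∀ j : ℕ, S1 fun v : ℕ → M => Sm j (v 0) (v 1)
  | 0 => S1.congr (P := fun v => (∀ x, mem x (v 0) → x ≠ x) ∧ ∀ x, mem x (v 1) → x ≠ x)
      (by exact S1I.out) fun v => by
        refine ⟨fun h => ⟨∅, le_rfl, fun x hx => absurd rfl (hx.elim (h.1 x) (h.2 x))⟩, ?_⟩
        rintro ⟨F, h1, h2⟩
        obtain rfl := Finset.card_eq_zero.1 (Nat.le_zero.1 h1)
        exact ⟨fun x hx => absurd (h2 x (Or.inl hx)) (Finset.notMem_empty x),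
          fun x hx => absurd (h2 x (Or.inr hx)) (Finset.notMem_empty x)⟩
  | j + 1 => by
    classical
    have : S2 (Sm j : M → M → Prop) := ⟨sm_s1 j⟩
    refine S1.congr (P := fun v => ∃ y a b, Sm j a b ∧ (∀ x, mem x (v 0) → x = y ∨ mem x a) ∧
      ∀ x, mem x (v 1) → x = y ∨ mem x b) (by exact S1I.out) fun v => ⟨?_, ?_⟩
    · rintro ⟨y, a, b, ⟨F, h1, h2⟩, h3, h4⟩
      refine ⟨insert y F, (Finset.card_insert_le _ _).trans (Nat.succ_le_succ h1), fun x hx => ?_⟩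
      rw [Finset.mem_insert]
      exact hx.elim (fun h => (h3 x h).imp id fun h => h2 x (Or.inl h))
        fun h => (h4 x h).imp id fun h => h2 x (Or.inr h)
    · rintro ⟨F, h1, h2⟩
      rcases F.eq_empty_or_nonempty with rfl | ⟨y, hy⟩
      · exact ⟨0, v 0, v 1, ⟨∅, Nat.zero_le _, h2⟩, fun x hx => Or.inr hx, fun x hx => Or.inr hx⟩
      · obtain ⟨s, hs⟩ := exists_single y
        obtain ⟨a, ha⟩ := exists_diff (v 0) s
        obtain ⟨b, hb⟩ := exists_diff (v 1) s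
        refine ⟨y, a, b, ⟨F.erase y, ?_, fun x hx => ?_⟩, fun x hx => ?_, fun x hx => ?_⟩
        · rw [Finset.card_erase_of_mem hy]
          exact Nat.sub_le_of_le_add h1
        · rw [ha, hb, hs] at hx
          exact Finset.mem_erase.2
            ⟨hx.elim (fun h => h.2) fun h => h.2, h2 x (hx.imp (fun h => h.1) fun h => h.1)⟩
        · exact (em (x = y)).imp id fun h => (ha x).2 ⟨hx, fun h' => h ((hs x).1 h')⟩
        · exact (em (x = y)).imp id fun h => (hb x).2 ⟨hx, fun h' => h ((hs x).1 h')⟩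

/-- a consistent condition on `[0, ν]` -/
def OK (ν a b : M) : Prop := (∀ x, mem x a → x ≤ ν ∧ ¬ mem x b) ∧ ∀ x, mem x b → x ≤ ν

/-- every sequence in the family lies in a definable subfamily -/
def Sig (𝓕 : M → M → Prop) : Prop :=
  ∀ a b : ℕ → M, (∀ n, 𝓕 (a n) (b n)) → ∃ F : M → M → Prop, (Ar fun v => F (v 0) (v 1)) ∧
    (∀ x y, F x y → 𝓕 x y) ∧ ∀ n, F (a n) (b n)

theorem SG.dense (hS : Sat (aleph 1) M) {ν : M} {c : Set M} (hc : SG ν c) : ∀ (j : ℕ)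
    (𝓕 : M → M → Prop), Sig 𝓕 → (∀ D : Finset M, ∃ a b, 𝓕 a b ∧ OK ν a b ∧ Sm j a b ∧
      ∀ x ∈ D, (mem x a → x ∈ c) ∧ (mem x b → x ∉ c)) → ∃ a b, 𝓕 a b ∧ Sub a c ∧ Sub b cᶜ := by
  classical
  intro j
  induction j with
  | zero =>
    intro 𝓕 _ h
    obtain ⟨a, b, h1, -, ⟨F, h2, h3⟩, -⟩ := h ∅
    obtain rfl := Finset.card_eq_zero.1 (Nat.le_zero.1 h2)
    exact ⟨a, b, h1, fun x hx => absurd (h3 x (Or.inl hx)) (Finset.notMem_empty x),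
      fun x hx => absurd (h3 x (Or.inr hx)) (Finset.notMem_empty x)⟩
  | succ j ih =>
    intro 𝓕 hσ h
    by_cases hd : ∀ D : Finset M, ∃ a b, 𝓕 a b ∧ OK ν a b ∧ Sm (j + 1) a b ∧
      ∀ x ∈ D, ¬ (mem x a ∨ mem x b)
    · choose fa fb f1 f2 f3 f4 using hd
      have f3' := f3
      choose fF _ f6 using f3'
      let D : ℕ → Finset M := fun n => (fun D => D ∪ fF D)^[n] ∅
      have hD : ∀ n, D (n + 1) = D n ∪ fF (D n) := fun n => Function.iterate_succ_apply' _ _ _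
      have mono : Monotone D := monotone_nat_of_le_succ fun n => by
        rw [hD]; exact Finset.subset_union_left
      have key : ∀ n m x, n < m → mem x (fa (D n)) ∨ mem x (fb (D n)) →
          ¬ (mem x (fa (D m)) ∨ mem x (fb (D m))) := fun n m x h hx =>
        f4 _ x (mono h (by rw [hD]; exact Finset.mem_union_right _ (f6 _ x hx)))
      obtain ⟨F, hF, e1, e2⟩ := hσ (fun n => fa (D n)) (fun n => fb (D n)) fun n => f1 _
      obtain ⟨d₀, hd₀⟩ := hS.code fun n => fa (D n)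
      obtain ⟨d₁, hd₁⟩ := hS.code fun n => fb (D n)
      have : Ar2 F := ⟨hF⟩
      have : Ar2 (Sm (j + 1) : M → M → Prop) := ⟨(sm_s1 _).ar⟩
      obtain ⟨N, hN, H⟩ := overspill hS.nonstd (P := fun N => (∀ i, i ≤ N → ∃ a b,
        (∀ x, mem (pr i x) d₀ ↔ x = a) ∧ (∀ x, mem (pr i x) d₁ ↔ x = b) ∧ F a b ∧ OK ν a b ∧
        Sm (j + 1) a b) ∧ ∀ i, i ≤ N → ∀ i', i' ≤ N → ∀ x,
          ((∃ a, mem (pr i a) d₀ ∧ mem x a) ∨ ∃ a, mem (pr i a) d₁ ∧ mem x a) →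
          ((∃ a, mem (pr i' a) d₀ ∧ mem x a) ∨ ∃ a, mem (pr i' a) d₁ ∧ mem x a) → i = i')
        (by unfold OK; exact ArI.out) fun N => by
          refine ⟨fun i hi => ?_, fun i hi i' hi' x hx hx' => ?_⟩
          · obtain ⟨n, -, rfl⟩ := exists_nat_of_le hi
            exact ⟨_, _, hd₀ n, hd₁ n, e2 n, f2 _, f3 _⟩
          · obtain ⟨n, -, rfl⟩ := exists_nat_of_le hi
            obtain ⟨m, -, rfl⟩ := exists_nat_of_le hi'
            simp only [hd₀, hd₁, exists_eq_left] at hx hx'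
            rcases lt_trichotomy n m with h | h | h
            · exact (key n m x h hx hx').elim
            · rw [h]
            · exact (key m n x h hx' hx).elim
      obtain ⟨H1, H2⟩ := H N le_rfl
      obtain ⟨i, hi, t0, t1⟩ := hc.meet hN (fun i x => ∃ a, mem (pr i a) d₀ ∧ mem x a)
        (fun i x => ∃ a, mem (pr i a) d₁ ∧ mem x a) (by exact ArI.out) (by exact ArI.out)
        (fun i hi => by
          obtain ⟨a, b, u0, u1, -, -, G, -, hG⟩ := H1 i hi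
          simp only [u0, u1, exists_eq_left]
          exact G.finite_toSet.subset hG)
        (fun i hi x => by
          obtain ⟨a, b, u0, u1, -, ok, -⟩ := H1 i hi
          simp only [u0, u1, exists_eq_left]
          exact fun h => h.elim (fun h => (ok.1 x h).1) (ok.2 x))
        (fun i hi x => by
          obtain ⟨a, b, u0, u1, -, ok, -⟩ := H1 i hi
          simp only [u0, u1, exists_eq_left]
          exact fun h => (ok.1 x h).2) H2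
      obtain ⟨a, b, u0, u1, hab, -⟩ := H1 i hi
      exact ⟨a, b, e1 _ _ hab, fun x hx => t0 x ⟨a, (u0 a).2 rfl, hx⟩,
        fun x hx => t1 x ⟨b, (u1 b).2 rfl, hx⟩⟩
    · simp only [not_forall, not_exists, not_and] at hd
      obtain ⟨D₀, hD₀⟩ := hd
      obtain ⟨r, hr⟩ := exists_code_of_finite D₀.finite_toSet
      obtain ⟨r₁, hr₁⟩ := exists_code_of_finite (D₀.finite_toSet.inter_of_left c)
      obtain ⟨r₀, hr₀⟩ := exists_code_of_finite (D₀.finite_toSet.inter_of_left cᶜ)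
      obtain ⟨a', b', ⟨a, b, h1, h2, h3⟩, t1, t0⟩ := ih (fun a' b' => ∃ a b, 𝓕 a b ∧
        (∀ x, mem x a → mem x a' ∨ mem x r₁) ∧ ∀ x, mem x b → mem x b' ∨ mem x r₀) (by
          intro a' b' H
          choose a b h1 h2 h3 using H
          obtain ⟨F, hF, e1, e2⟩ := hσ a b h1
          have : Ar2 F := ⟨hF⟩
          exact ⟨fun a' b' => ∃ a b, F a b ∧ (∀ x, mem x a → mem x a' ∨ mem x r₁) ∧
            ∀ x, mem x b → mem x b' ∨ mem x r₀, by exact ArI.out,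
            fun x y ⟨a, b, h1, h2⟩ => ⟨a, b, e1 _ _ h1, h2⟩,
            fun n => ⟨a n, b n, e2 n, h2 n, h3 n⟩⟩) (by
          intro D
          obtain ⟨a, b, h1, h2, h3, h4⟩ := h (D ∪ D₀)
          obtain ⟨y, hy, hy'⟩ := hD₀ a b h1 h2 h3
          obtain ⟨F, h5, h6⟩ := h3
          obtain ⟨a', ha'⟩ := exists_diff a r
          obtain ⟨b', hb'⟩ := exists_diff b r
          refine ⟨a', b', ⟨a, b, h1, fun x hx => ?_, fun x hx => ?_⟩,
            ⟨fun x hx => ⟨(h2.1 x ((ha' x).1 hx).1).1,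
              fun h => (h2.1 x ((ha' x).1 hx).1).2 ((hb' x).1 h).1⟩,
              fun x hx => h2.2 x ((hb' x).1 hx).1⟩, ⟨F.erase y, ?_, fun x hx => ?_⟩,
            fun x hx => ⟨fun h => (h4 x (Finset.mem_union_left _ hx)).1 ((ha' x).1 h).1,
              fun h => (h4 x (Finset.mem_union_left _ hx)).2 ((hb' x).1 h).1⟩⟩
          · refine (em (mem x r)).symm.imp (fun h => (ha' x).2 ⟨hx, h⟩) fun h => (hr₁ x).2 ?_
            exact ⟨(hr x).1 h, (h4 x (Finset.mem_union_right _ ((hr x).1 h))).1 hx⟩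
          · refine (em (mem x r)).symm.imp (fun h => (hb' x).2 ⟨hx, h⟩) fun h => (hr₀ x).2 ?_
            exact ⟨(hr x).1 h, (h4 x (Finset.mem_union_right _ ((hr x).1 h))).2 hx⟩
          · rw [Finset.card_erase_of_mem (h6 y (not_not.1 hy'))]
            exact Nat.sub_le_of_le_add h5
          · rw [ha', hb'] at hx
            refine Finset.mem_erase.2 ⟨?_, h6 x (hx.imp (fun h => h.1) fun h => h.1)⟩
            rintro rfl
            exact hx.elim (fun h => h.2) (fun h => h.2) ((hr x).2 hy))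
      exact ⟨a, b, h1, fun x hx => (h2 x hx).elim (t1 x) fun h => ((hr₁ x).1 h).2,
        fun x hx => (h3 x hx).elim (t0 x) fun h => ((hr₀ x).1 h).2⟩

theorem sig_of_ar {F : M → M → Prop} (hF : Ar fun v => F (v 0) (v 1)) : Sig F :=
  fun _ _ h => ⟨F, hF, fun _ _ h => h, h⟩

theorem SG.finite1 (hS : Sat (aleph 1) M) {ν : M} {c : Set M} (hc : SG ν c) {k : M}
    (hk : Sub k c) : {x | mem x k}.Finite := by
  by_contra hinf
  obtain ⟨e, he⟩ := exists_empty (M := M)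
  obtain ⟨a, b, ⟨x, h1, h2⟩, -, t⟩ := hc.dense hS 1 (fun _ b => ∃ x, mem x b ∧ mem x k)
    (sig_of_ar (by exact ArI.out)) fun D => by
      obtain ⟨x, hx, hx'⟩ := Set.Infinite.exists_notMem_finset hinf D
      obtain ⟨s, hs⟩ := exists_single x
      exact ⟨e, s, ⟨x, (hs x).2 rfl, hx⟩, ⟨fun y hy => (he y hy).elim,
        fun y hy => (hs y).1 hy ▸ hc.2.1 x (hk x hx)⟩, ⟨{x}, le_rfl, fun y hy =>
          Finset.mem_singleton.2 ((hs y).1 (hy.resolve_left (he y)))⟩,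
        fun y hy => ⟨fun h => (he y h).elim, fun h => absurd ((hs y).1 h ▸ hy) hx'⟩⟩
  exact t x h1 (hk x h2)

theorem SG.finite0 (hS : Sat (aleph 1) M) {ν : M} {c : Set M} (hc : SG ν c) {k : M}
    (hk : ∀ x, mem x k → x ≤ ν ∧ x ∉ c) : {x | mem x k}.Finite := by
  by_contra hinf
  obtain ⟨e, he⟩ := exists_empty (M := M)
  obtain ⟨a, b, ⟨x, h1, h2⟩, t, -⟩ := hc.dense hS 1 (fun a _ => ∃ x, mem x a ∧ mem x k)
    (sig_of_ar (by exact ArI.out)) fun D => by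
      obtain ⟨x, hx, hx'⟩ := Set.Infinite.exists_notMem_finset hinf D
      obtain ⟨s, hs⟩ := exists_single x
      exact ⟨s, e, ⟨x, (hs x).2 rfl, hx⟩, ⟨fun y hy => ⟨(hs y).1 hy ▸ (hk x hx).1, he y⟩,
        fun y hy => (he y hy).elim⟩, ⟨{x}, le_rfl, fun y hy =>
          Finset.mem_singleton.2 ((hs y).1 (hy.resolve_right (he y)))⟩,
        fun y hy => ⟨fun h => absurd ((hs y).1 h ▸ hy) hx', fun h => (he y h).elim⟩⟩
  exact (hk x h2).2 (t x h1)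

theorem SG.red_omega (hS : Sat (aleph 1) M) {ν : M} {c : Set M} (hc : SG ν c) :
    Red (omega M) c := by
  refine red_omega_of_not_dir hS fun hD => ?_
  have hinf : c.Infinite := by
    intro hfin
    obtain ⟨k, hk⟩ := exists_code_of_finite hfin
    obtain ⟨l, hl⟩ := compr (P := fun x => ¬ mem x k) (by exact ArI.out) (ν + 1)
    have := hc.finite0 hS (k := l) fun x hx =>
      ⟨lt_succ_iff.1 ((hl x).1 hx).1, fun h => ((hl x).1 hx).2 ((hk x).2 h)⟩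
    refine Set.infinite_range_of_injective (Nat.cast_injective (R := M))
      ((hfin.union this).subset ?_)
    rintro _ ⟨n, rfl⟩
    exact (em _).imp id fun h => (hl _).2
      ⟨lt_succ_iff.2 (le_of_nonstd (nat_std n) hc.1), fun h' => h ((hk _).1 h')⟩
  let f := hinf.natEmbedding
  obtain ⟨e, he⟩ := exists_empty (M := M)
  choose s hs using exists_single (M := M)
  obtain ⟨a, -, ha, -, h1, -⟩ := hD (fun n => s (f n)) (fun _ => e)
    (fun n x hx => (hs _ x).1 hx ▸ (f n).2) fun _ => sub_empty he _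
  refine Set.infinite_range_of_injective (Subtype.val_injective.comp f.injective)
    ((hc.finite1 hS ha).subset ?_)
  rintro _ ⟨n, rfl⟩
  exact h1 n _ ((hs _ _).2 rfl)

/-- confirmation through a condition of the first and a condition of the second component -/
def Q2 (C : M → M → M → M → Prop) (ν k₁ k₀ p₁ p₀ a b : M) : Prop :=
  ∃ a' b', C k₁ k₀ a' b' ∧
    (∀ z, mem z a' → (∃ x, z = pr 0 x ∧ mem x p₁) ∨ ∃ x, z = pr 1 x ∧ mem x a) ∧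
    ∀ z, mem z b' → (∀ x, z = pr 0 x → mem x p₀) ∧ ∀ x, z = pr 1 x → mem x b ∨ ν < x

/-- A countably directed set below the join of a countably directed set `X` with the generic set
is below `X`. -/
theorem SG.red_of_dir (hS : Sat (aleph 1) M) {ν : M} {c W X : Set M} (hc : SG ν c) (hW : Dir W)
    (hX : Dir X) (h : Red W (join X c)) : Red W X := by
  classical
  obtain ⟨C, hC⟩ := h.conf
  have : S4 C := ⟨hC.s1⟩
  have : Ar4 C := ⟨hC.s1.ar⟩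
  have sound : ∀ {k₁ k₀ p₁ p₀ a b}, Sub p₁ X → Sub p₀ Xᶜ → Sub a c → Sub b cᶜ →
      Q2 C ν k₁ k₀ p₁ p₀ a b → Sub k₁ W ∧ Sub k₀ Wᶜ := by
    rintro k₁ k₀ p₁ p₀ a b h1 h0 ha hb ⟨a', b', h, u, w⟩
    refine hC.sound (fun z hz => ?_) (fun z hz => ?_) h
    · rcases u z hz with ⟨x, rfl, hx⟩ | ⟨x, rfl, hx⟩
      · exact pr0_mem_join.2 (h1 x hx)
      · exact pr1_mem_join.2 (ha x hx)
    · rintro (⟨x, hx, e⟩ | ⟨x, hx, e⟩)
      · exact h0 x ((w z hz).1 x e) hx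
      · exact ((w z hz).2 x e).elim (fun h => hb x h hx) fun h => absurd (hc.2.1 x hx) (not_le.2 h)
  have mono : ∀ {k₁ k₀ p₁ p₀ a b k₁' k₀' p₁' p₀'}, Q2 C ν k₁ k₀ p₁ p₀ a b → sub k₁' k₁ →
      sub k₀' k₀ → sub p₁ p₁' → sub p₀ p₀' → Q2 C ν k₁' k₀' p₁' p₀' a b := by
    rintro k₁ k₀ p₁ p₀ a b k₁' k₀' p₁' p₀' ⟨a', b', h, u, w⟩ e1 e2 e3 e4
    exact ⟨a', b', hC.mono h e1 e2 (sub_refl _) (sub_refl _),
      fun z hz => (u z hz).imp (fun ⟨x, e, hx⟩ => ⟨x, e, e3 x hx⟩) id,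
      fun z hz => ⟨fun x e => e4 x ((w z hz).1 x e), (w z hz).2⟩⟩
  obtain ⟨j, hj⟩ : ∃ j : ℕ, ∀ k₁ k₀, Sub k₁ W → Sub k₀ Wᶜ → ∃ p₁ p₀ a b, Sub p₁ X ∧ Sub p₀ Xᶜ ∧
      Sub a c ∧ Sub b cᶜ ∧ OK ν a b ∧ Sm j a b ∧ Q2 C ν k₁ k₀ p₁ p₀ a b := by
    by_contra hn
    simp only [not_exists, not_forall] at hn
    choose k₁ k₀ t₁ t₀ hk using hn
    obtain ⟨l₁, l₀, u₁, u₀, w₁, w₀⟩ := hW k₁ k₀ t₁ t₀
    obtain ⟨a', b', ha', hb', h⟩ := hC.compl u₁ u₀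
    choose r hr using exists_row (M := M)
    obtain ⟨b, hb⟩ := compr (P := fun x => mem (pr 1 x) b') (by exact ArI.out) (ν + 1)
    have s1 : Sub (r 1 a') c := fun x hx => pr1_mem_join.1 (ha' _ ((hr _ _ _).1 hx))
    have s0 : ∀ x, mem x b → x ≤ ν ∧ x ∉ c := fun x hx => ⟨lt_succ_iff.1 ((hb x).1 hx).1,
      fun h => hb' _ ((hb x).1 hx).2 (pr1_mem_join.2 h)⟩
    have fin := (hc.finite1 hS s1).union (hc.finite0 hS s0)
    refine hk fin.toFinset.card (r 0 a') (r 0 b') (r 1 a') b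
      ⟨fun x hx => pr0_mem_join.1 (ha' _ ((hr _ _ _).1 hx)),
        fun x hx hx' => hb' _ ((hr _ _ _).1 hx) (pr0_mem_join.2 hx'), s1, fun x hx => (s0 x hx).2,
        ⟨fun x hx => ⟨hc.2.1 x (s1 x hx), fun h => (s0 x h).2 (s1 x hx)⟩, fun x hx => (s0 x hx).1⟩,
        ⟨fin.toFinset, le_rfl, fun x hx => fin.mem_toFinset.2 hx⟩,
        a', b', hC.mono h (w₁ _) (w₀ _) (sub_refl _) (sub_refl _), fun z hz => ?_,
        fun z hz => ⟨?_, ?_⟩⟩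
    · rcases ha' z hz with ⟨x, -, rfl⟩ | ⟨x, -, rfl⟩
      · exact Or.inl ⟨x, rfl, (hr _ _ _).2 hz⟩
      · exact Or.inr ⟨x, rfl, (hr _ _ _).2 hz⟩
    · rintro x rfl; exact (hr _ _ _).2 hz
    · rintro x rfl
      exact (le_or_gt x ν).imp (fun h => (hb x).2 ⟨lt_succ_iff.2 h, hz⟩) id
  have := mt (hc.dense hS j (fun a b => ∃ k₁ k₀ p₁ p₀ l₁ l₀, Sub p₁ X ∧ Sub p₀ Xᶜ ∧ Sub l₁ W ∧
    Sub l₀ Wᶜ ∧ Q2 C ν k₁ k₀ p₁ p₀ a b ∧ Clash k₁ k₀ l₁ l₀) (by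
      intro a b H
      choose k₁ k₀ p₁ p₀ l₁ l₀ h1 h0 t₁ t₀ hq hcl using H
      obtain ⟨L₁, L₀, u₁, u₀, w₁, w₀⟩ := hW l₁ l₀ t₁ t₀
      obtain ⟨P₁, P₀, v₁, v₀, y₁, y₀⟩ := hX p₁ p₀ h1 h0
      exact ⟨fun a b => ∃ k₁ k₀, Q2 C ν k₁ k₀ P₁ P₀ a b ∧ Clash k₁ k₀ L₁ L₀,
        by unfold Q2 Clash; exact ArI.out,
        fun a b ⟨k₁, k₀, h1, h2⟩ => ⟨k₁, k₀, P₁, P₀, L₁, L₀, v₁, v₀, u₁, u₀, h1, h2⟩,
        fun n => ⟨k₁ n, k₀ n, mono (hq n) (sub_refl _) (sub_refl _) (y₁ n) (y₀ n),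
          (hcl n).mono (w₁ n) (w₀ n)⟩⟩)) (by
      rintro ⟨a, b, ⟨k₁, k₀, p₁, p₀, l₁, l₀, h1, h0, t₁, t₀, hq, hcl⟩, ha, hb⟩
      exact hcl.false (sound h1 h0 ha hb hq) t₁ t₀)
  simp only [not_forall, not_exists] at this
  obtain ⟨D, hD⟩ := this
  obtain ⟨r₁, hr₁⟩ := exists_code_of_finite (D.finite_toSet.inter_of_left c)
  obtain ⟨r₀, hr₀⟩ := exists_code_of_finite (D.finite_toSet.inter_of_left cᶜ)
  have : S2 (Sm j : M → M → Prop) := ⟨sm_s1 j⟩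
  refine red_of_rel (fun k₁ k₀ p₁ p₀ => ∃ a b, OK ν a b ∧ Sm j a b ∧ (∀ x, mem x a → ¬ mem x r₀) ∧
    (∀ x, mem x b → ¬ mem x r₁) ∧ Q2 C ν k₁ k₀ p₁ p₀ a b) (by unfold OK Q2; exact S1I.out) ?_ ?_
  · rintro k₁ k₀ p₁ p₀ h1 h0 ⟨a, b, e1, e2, e3, e4, e5⟩
    by_contra hn
    obtain ⟨l₁, l₀, t₁, t₀, hcl⟩ := exists_clash hn
    exact hD a b ⟨⟨k₁, k₀, p₁, p₀, l₁, l₀, h1, h0, t₁, t₀, e5, hcl⟩, e1, e2, fun x hx =>
      ⟨fun h => by_contra fun h' => e3 x h ((hr₀ x).2 ⟨hx, h'⟩),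
        fun h h' => e4 x h ((hr₁ x).2 ⟨hx, h'⟩)⟩⟩
  · intro k₁ k₀ t₁ t₀
    obtain ⟨p₁, p₀, a, b, h1, h0, ha, hb, e1, e2, e3⟩ := hj k₁ k₀ t₁ t₀
    exact ⟨p₁, p₀, h1, h0, a, b, e1, e2, fun x hx h => ((hr₀ x).1 h).2 (ha x hx),
      fun x hx h => hb x hx ((hr₁ x).1 h).2, e3⟩

end Pool.Agent.MP_62ad46_lc.H29
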