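import Pool.Agent.MP_62ad46_lc.H29.Exact

/-! An order-theoretic characterisation of the degree of the standard cut. -/

set_option linter.unusedSectionVars false
set_option synthInstance.maxSize 100000

namespace Pool.Agent.MP_62ad46_lc.H29

open Pool.Agent.MP_62ad46_lc.H18 Pool.Agent.MP_6072c5_lc.H80 Cardinal

section Order
variable {D : Type} [LE D]

/-- `v` is below every upper bound of `u` and `b`. -/
def jle (v u b : D) : Prop := ∀ y, u ≤ y → b ≤ y → v ≤ y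

/-- the successor relation given by four parameters -/
def rho (b₀ b₁ e₀ e₁ u v : D) : Prop := ∃ w, jle w u b₀ ∧ w ≤ e₁ ∧ jle v w b₁ ∧ v ≤ e₀

/-- `z` is generated over `c` by the successor relation, and not in finitely many steps. -/
def Th (z : D) : Prop := ∃ a c b₀ b₁ e₀ e₁ : D, c ≤ z ∧ (∃ u, u ≤ z ∧ ¬ a ≤ u) ∧
  (∀ u, u ≤ z → ¬ a ≤ u → ∃ u', u' ≤ z ∧ ¬ a ≤ u' ∧ u ≤ u' ∧
    ∀ u₀, u₀ ≤ z → ¬ a ≤ u₀ → jle u₀ u c → ∀ v, rho b₀ b₁ e₀ e₁ u₀ v → v ≤ u') ∧
  (∀ u, u ≤ z → ¬ a ≤ u → ¬ jle z u c) ∧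
  ∀ y, c ≤ y → (∀ u, u ≤ z → ¬ a ≤ u → u ≤ y → ∀ v, rho b₀ b₁ e₀ e₁ u v → v ≤ y) → z ≤ y

/-- nonzero and below every generated element -/
def Low (x : D) : Prop := (¬ ∀ y, x ≤ y) ∧ ∀ z, Th z → x ≤ z

end Order

variable {M : Type} [CommSemiring M] [LinearOrder M] [IsPA M]

theorem deg_surj (a : Deg M) : ∃ A, a = deg A := by
  obtain ⟨A⟩ := a
  exact ⟨A, rfl⟩

theorem dir_of_red (hS : Sat (aleph 1) M) {U Z : Set M} (h : Red U Z) (hZ : Dir Z) : Dir U :=
  dir_of_not_red hS fun h' => not_red_omega_of_dir hS hZ (h'.trans h)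

theorem jle_iff {V U B : Set M} : jle (deg V) (deg U) (deg B) ↔ Red V (join U B) := by
  refine ⟨fun h => deg_le_iff.1 (h _ (deg_le_iff.2 (red_join_left _ _))
    (deg_le_iff.2 (red_join_right _ _))), fun h y h1 h2 => ?_⟩
  obtain ⟨Y, rfl⟩ := deg_surj y
  exact deg_le_iff.2 (h.trans (red_join (deg_le_iff.1 h1) (deg_le_iff.1 h2)))

theorem join_mono {U U' B B' : Set M} (h : Red U U') (h' : Red B B') :
    Red (join U B) (join U' B') :=
  red_join (h.trans (red_join_left _ _)) (h'.trans (red_join_right _ _))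

/-- Every generated degree computes the standard cut. -/
theorem omega_le_of_th (hS : Sat (aleph 1) M) {z : Deg M} (h : Th z) : deg (omega M) ≤ z := by
  obtain ⟨Z, rfl⟩ := deg_surj z
  refine deg_le_iff.2 (red_omega_of_not_dir hS fun hZ => ?_)
  obtain ⟨a, c, b₀, b₁, e₀, e₁, h1, ⟨u₀, h2⟩, h3, h4, h5⟩ := h
  obtain ⟨C, rfl⟩ := deg_surj c
  have step : ∀ u : {U : Set M // deg U ≤ deg Z ∧ ¬ a ≤ deg U},
      ∃ u' : {U : Set M // deg U ≤ deg Z ∧ ¬ a ≤ deg U}, Red u.1 u'.1 ∧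
        ∀ u₀, u₀ ≤ deg Z → ¬ a ≤ u₀ → jle u₀ (deg u.1) (deg C) →
          ∀ v, rho b₀ b₁ e₀ e₁ u₀ v → v ≤ deg u'.1 := by
    intro u
    obtain ⟨u', p1, p2, p3, p4⟩ := h3 _ u.2.1 u.2.2
    obtain ⟨U', rfl⟩ := deg_surj u'
    exact ⟨⟨U', p1, p2⟩, deg_le_iff.1 p3, p4⟩
  choose f f1 f2 using step
  obtain ⟨U₀, rfl⟩ := deg_surj u₀
  let u : ℕ → {U : Set M // deg U ≤ deg Z ∧ ¬ a ≤ deg U} := fun n => f^[n] ⟨U₀, h2⟩
  have hu : ∀ n, u (n + 1) = f (u n) := fun n => Function.iterate_succ_apply' _ _ _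
  have mono : ∀ n m, n ≤ m → Red (u n).1 (u m).1 := by
    intro n m h
    induction m, h using Nat.le_induction with
    | base => exact Red.refl _
    | succ m _ ih => rw [hu]; exact ih.trans (f1 _)
  let x : ℕ → Set M := fun n => Nat.casesOn n C fun m => (u m).1
  have hx : ∀ n, Dir (x n) := fun n => by
    cases n with
    | zero => exact dir_of_red hS (deg_le_iff.1 h1) hZ
    | succ m => exact dir_of_red hS (deg_le_iff.1 (u m).2.1) hZ
  have hy : ∀ n, Red (x n) (osum x) := fun n => red_of_row (n : M) fun _ => mem_osum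
  have key : ∀ W, Dir W → Red W (osum x) → ∃ k, jle (deg W) (deg (u k).1) (deg C) := by
    intro W hW h
    obtain ⟨k, hk⟩ := exact_pair hS hx hW h
    refine ⟨k, jle_iff.2 (hk _ fun n hn => ?_)⟩
    cases n with
    | zero => exact red_join_right _ _
    | succ m => exact (mono m k (Nat.le_of_succ_le hn)).trans (red_join_left _ _)
  have := h5 (deg (osum x)) (deg_le_iff.2 (hy 0)) fun w p1 p2 p3 v p4 => by
    obtain ⟨W, rfl⟩ := deg_surj w
    obtain ⟨V, rfl⟩ := deg_surj v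
    obtain ⟨k, hk⟩ := key W (dir_of_red hS (deg_le_iff.1 p1) hZ) (deg_le_iff.1 p3)
    have := f2 (u k) _ p1 p2 hk _ p4
    rw [← hu] at this
    exact deg_le_iff.2 ((deg_le_iff.1 this).trans (hy (k + 1 + 1)))
  obtain ⟨k, hk⟩ := key Z hZ (deg_le_iff.1 this)
  exact h4 _ (u k).2.1 (u k).2.2 hk

/-- points of type `s` in the columns from `lo` to `hi` -/
def I (s lo hi x : M) : Prop := ∃ w, x = pr s w ∧ ∃ i t, w = pr i t ∧ lo ≤ i ∧ i ≤ hi

/-- points of type `s` -/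
def E (s x : M) : Prop := ∃ w, x = pr s w ∧ w = w

/-- the matching inside a column -/
def p0 (x y : M) : Prop := ∃ w, x = pr 0 w ∧ y = pr 1 w

/-- the matching between consecutive columns -/
def p1 (x y : M) : Prop := ∃ w, x = pr 1 w ∧ ∃ i t, w = pr i t ∧ y = pr 0 (pr (i + 1) t)

instance (s lo hi : M) : D1 (I s lo hi) := ⟨by unfold I; exact D0I.out⟩
instance (s : M) : D1 (E s) := ⟨by unfold E; exact D0I.out⟩
instance : D2 (p0 : M → M → Prop) := ⟨by unfold p0; exact D0I.out⟩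
instance : D2 (p1 : M → M → Prop) := ⟨by unfold p1; exact D0I.out⟩

theorem p0_fun (x y y' : M) (h : p0 x y) (h' : p0 x y') : y = y' := by
  obtain ⟨w, rfl, rfl⟩ := h
  obtain ⟨w', e, rfl⟩ := h'
  rw [(pr_inj.1 e).2]

theorem p1_fun (x y y' : M) (h : p1 x y) (h' : p1 x y') : y = y' := by
  obtain ⟨w, rfl, i, t, rfl, rfl⟩ := h
  obtain ⟨w', e, i', t', rfl, rfl⟩ := h'
  obtain ⟨rfl, rfl⟩ := pr_inj.1 (pr_inj.1 e).2
  rfl

section
variable {G : Set M} (hG : Ar fun v => v 0 ∈ G) (gen : Gen G)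
include hG gen

theorem meet_p0 {W : Set M} (lo hi : M) (h1 : Red W (join (cut G (I 0 lo hi)) (bx p0 G)))
    (h2 : Red W (cut G (E 1))) : Red W (cut G (I 1 lo hi)) := by
  refine meet hG gen (I 0 lo hi) (E 1) (I 1 lo hi) p0 ?_ p0_fun ?_ ?_ h1 h2
  · rintro x y ⟨w, rfl, rfl⟩
    exact ⟨fun ⟨_, e, _⟩ => zero_ne_one (pr_inj.1 e).1, ⟨w, rfl, rfl⟩,
      (pr_mono le_rfl (le_pr_right _ _)).trans (pr1_le_bd _)⟩
  · rintro y ⟨w, rfl, -⟩ ⟨_, e, _⟩
    exact absurd (pr_inj.1 e).1 zero_ne_one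
  · rintro x y ⟨w, rfl, h⟩ ⟨w', e, rfl⟩
    exact ⟨w', rfl, (pr_inj.1 e).2 ▸ h⟩

theorem meet_p1 {W : Set M} (lo hi : M) (h1 : Red W (join (cut G (I 1 lo hi)) (bx p1 G)))
    (h2 : Red W (cut G (E 0))) : Red W (cut G (I 0 lo (hi + 1))) := by
  refine meet hG gen (I 1 lo hi) (E 0) (I 0 lo (hi + 1)) p1 ?_ p1_fun ?_ ?_ h1 h2
  · rintro x y ⟨w, rfl, i, t, rfl, rfl⟩
    exact ⟨fun ⟨_, e, _⟩ => one_ne_zero (pr_inj.1 e).1, ⟨_, rfl, rfl⟩,
      pr_mono zero_le_one (pr_mono (add_le_add_left ((le_pr_left _ _).trans (le_pr_right _ _)) 1)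
        ((le_pr_right _ _).trans (le_pr_right _ _)))⟩
  · rintro y ⟨w, rfl, -⟩ ⟨_, e, _⟩
    exact absurd (pr_inj.1 e).1 one_ne_zero
  · rintro x y ⟨w, rfl, i, t, rfl, a, b⟩ ⟨w', e, i', t', rfl, rfl⟩
    obtain ⟨rfl, rfl⟩ := pr_inj.1 (pr_inj.1 e).2
    exact ⟨_, rfl, _, _, rfl, a.trans le_self_add, add_le_add_left b 1⟩

omit gen in
theorem red_I {s lo hi lo' hi' : M} (h1 : lo' ≤ lo) (h2 : hi ≤ hi') :
    Red (cut G (I s lo hi)) (cut G (I s lo' hi')) :=
  red_cut hG _ _ fun _ ⟨w, e, i, t, e', a, b⟩ => ⟨w, e, i, t, e', h1.trans a, b.trans h2⟩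

omit gen in
theorem rho_step (lo hi : M) : rho (deg (bx p0 G)) (deg (bx p1 G)) (deg (cut G (E 0)))
    (deg (cut G (E 1))) (deg (cut G (I 0 lo hi))) (deg (cut G (I 0 (lo + 1) (hi + 1)))) := by
  refine ⟨deg (cut G (I 1 lo hi)), jle_iff.2 (red_match hG _ _ p0 p0_fun ?_),
    deg_le_iff.2 (red_cut hG _ _ fun _ ⟨w, e, _⟩ => ⟨w, e, rfl⟩),
    jle_iff.2 (red_match hG _ _ p1 p1_fun ?_),
    deg_le_iff.2 (red_cut hG _ _ fun _ ⟨w, e, _⟩ => ⟨w, e, rfl⟩)⟩
  · rintro y ⟨w, rfl, h⟩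
    exact ⟨pr 0 w, ⟨w, rfl, h⟩, ⟨w, rfl, rfl⟩,
      pr_mono le_rfl (pr_mono (IsPA.nonneg _) (le_pr_right _ _))⟩
  · rintro y ⟨w, rfl, i, t, rfl, a, b⟩
    obtain ⟨j, rfl⟩ := IsPA.sub _ _ (le_add_self.trans a : (1 : M) ≤ i)
    rw [add_comm 1 j] at a b ⊢
    exact ⟨pr 1 (pr j t), ⟨_, rfl, j, t, rfl, le_of_add_le_add_right a, le_of_add_le_add_right b⟩,
      ⟨_, rfl, j, t, rfl, rfl⟩, pr_mono le_rfl (pr_mono le_add_self
        ((pr_mono le_self_add le_rfl).trans (le_pr_right _ _)))⟩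

/-- The generated degrees: every countably directed set below it is below a finite block of
columns of the generic set. -/
theorem exists_th (hS : Sat (aleph 1) M) (lo : M) : ∃ Z : Set M, Th (deg Z) ∧
    ∀ W, Dir W → Red W Z → ∃ k : ℕ, Red W (cut G (I 0 lo (lo + k))) := by
  obtain ⟨ν, c, hc⟩ := exists_sg hS
  let x : ℕ → Set M := fun k => cut G (I 0 lo (lo + k))
  have dx : ∀ k, Dir (x k) := fun k => dir_of_ar hS (ar_cut hG _)
  have mono : ∀ n m, n ≤ m → Red (x n) (x m) := fun n m h =>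
    red_I hG le_rfl (add_le_add_right (by exact_mod_cast h) lo)
  let g : ℕ → Set M := fun n => Nat.casesOn n c x
  have hg : ∀ n, Red (g n) (zs c g) := fun n => red_of_row (n : M) fun _ => mem_zs
  have low : ∀ W, Dir W → Red W (zs c g) → ∃ k : ℕ, Red W (x k) := by
    intro W hW h
    obtain ⟨k, hk⟩ := zs_dir hS hc hW h
    refine ⟨k, hc.red_of_dir hS hW (dx k) (hk _ (red_join_right _ _) fun n hn => ?_)⟩
    cases n with
    | zero => exact red_join_right _ _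
    | succ m => exact (mono m k (Nat.le_of_succ_le hn)).trans (red_join_left _ _)
  have inK : ∀ k, deg (x k) ≤ deg (zs c g) ∧ ¬ deg (omega M) ≤ deg (x k) := fun k =>
    ⟨deg_le_iff.2 (hg (k + 1)), fun h => not_red_omega_of_dir hS (dx k) (deg_le_iff.1 h)⟩
  have base : ∀ {U : Set M} {k : ℕ}, Red U (x k) → Red (join U (join (x 0) c)) (join (x k) c) :=
    fun h => red_join (h.trans (red_join_left _ _)) (join_mono (mono 0 _ (Nat.zero_le _)) (Red.refl _))
  refine ⟨zs c g, ⟨deg (omega M), deg (join (x 0) c), deg (bx p0 G), deg (bx p1 G),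
    deg (cut G (E 0)), deg (cut G (E 1)), deg_le_iff.2 (red_join (hg 1) (hg 0)),
    ⟨_, inK 0⟩, fun u h1 h2 => ?_, fun u h1 h2 h3 => ?_, fun y h1 h2 => ?_⟩, low⟩
  · obtain ⟨U, rfl⟩ := deg_surj u
    obtain ⟨k, hk⟩ := low U (dir_of_not_red hS fun h => h2 (deg_le_iff.2 h)) (deg_le_iff.1 h1)
    refine ⟨_, (inK (k + 1)).1, (inK (k + 1)).2, deg_le_iff.2 (hk.trans (mono _ _ k.le_succ)),
      fun u₀ _ q2 q3 v ⟨w, r1, r2, r3, r4⟩ => ?_⟩
    obtain ⟨U₀, rfl⟩ := deg_surj u₀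
    obtain ⟨V, rfl⟩ := deg_surj v
    obtain ⟨W, rfl⟩ := deg_surj w
    have s1 : Red U₀ (x k) := hc.red_of_dir hS (dir_of_not_red hS fun h => q2 (deg_le_iff.2 h))
      (dx k) ((jle_iff.1 q3).trans (base hk))
    have s2 := meet_p0 hG gen lo (lo + k) ((jle_iff.1 r1).trans (join_mono s1 (Red.refl _)))
      (deg_le_iff.1 r2)
    have s3 := meet_p1 hG gen lo (lo + k) ((jle_iff.1 r3).trans (join_mono s2 (Red.refl _)))
      (deg_le_iff.1 r4)
    exact deg_le_iff.2 (s3.trans (red_I hG le_rfl (by rw [Nat.cast_succ, add_assoc])))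
  · obtain ⟨U, rfl⟩ := deg_surj u
    obtain ⟨k, hk⟩ := low U (dir_of_not_red hS fun h => h2 (deg_le_iff.2 h)) (deg_le_iff.1 h1)
    have s1 : Red (x (k + 1)) (x k) := hc.red_of_dir hS (dx _) (dx k)
      ((hg (k + 1 + 1)).trans ((jle_iff.1 h3).trans (base hk)))
    have s2 : Red (cut G (I 0 (lo + k + 1) (lo + k + 1))) (x (k + 1)) :=
      red_I hG (le_self_add.trans le_self_add) (by rw [Nat.cast_succ, add_assoc])
    refine not_red_empty hG gen (I 0 (lo + k + 1) (lo + k + 1)) (fun m => ⟨pr 0 (pr (lo + k + 1) m),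
      (le_pr_right _ _).trans (le_pr_right _ _), _, rfl, _, _, rfl, le_rfl, le_rfl⟩)
      (meet0 hG gen (I 0 lo (lo + k)) (I 0 (lo + k + 1) (lo + k + 1)) ?_ (s2.trans s1) (Red.refl _))
    rintro y ⟨w, rfl, i, t, rfl, -, a⟩ ⟨w', e, i', t', rfl, b, -⟩
    obtain ⟨rfl, rfl⟩ := pr_inj.1 (pr_inj.1 e).2
    exact absurd (lt_add_one _) (not_lt.2 (b.trans a))
  · obtain ⟨Y, rfl⟩ := deg_surj y
    have h1 := deg_le_iff.1 h1
    have all : ∀ k, Red (x k) Y := by
      intro k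
      induction k with
      | zero => exact (red_join_left _ _).trans h1
      | succ k ih =>
        have := deg_le_iff.1 (h2 _ (inK k).1 (inK k).2 (deg_le_iff.2 ih) _ (rho_step hG lo (lo + k)))
        refine (red_union hG _ (I 0 lo (lo + k)) (I 0 (lo + 1) (lo + k + 1)) ?_).trans
          (red_join ih this)
        rintro y ⟨w, e, i, t, e', a, b⟩
        rcases eq_or_lt_of_le a with rfl | a
        · exact Or.inl ⟨w, e, _, t, e', le_rfl, le_self_add⟩
        · exact Or.inr ⟨w, e, i, t, e', succ_le_of_lt a, by rwa [Nat.cast_succ, ← add_assoc] at b⟩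
    refine deg_le_iff.2 (zs_lub hS hc ((red_join_right _ _).trans h1) fun n => ?_)
    cases n with
    | zero => exact (red_join_right _ _).trans h1
    | succ m => exact all m

end

theorem omega_le_of_low (hS : Sat (aleph 1) M) {x : Deg M} (h : Low x) : deg (omega M) ≤ x := by
  obtain ⟨X, rfl⟩ := deg_surj x
  refine deg_le_iff.2 (red_omega_of_not_dir hS fun hX => h.1 fun y => ?_)
  obtain ⟨Y, rfl⟩ := deg_surj y
  obtain ⟨G, hG, gen⟩ := exists_gen (M := M)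
  obtain ⟨a, ha⟩ := hS.nonstd
  obtain ⟨Z₀, t0, h0⟩ := exists_th hG gen hS 0
  obtain ⟨Z₁, t1, h1⟩ := exists_th hG gen hS a
  obtain ⟨k, hk⟩ := h0 X hX (deg_le_iff.1 (h.2 _ t0))
  obtain ⟨j, hj⟩ := h1 X hX (deg_le_iff.1 (h.2 _ t1))
  refine deg_le_iff.2 ((meet0 hG gen _ _ ?_ hk hj).trans (red_empty Y))
  rintro y ⟨w, rfl, i, t, rfl, -, p⟩ ⟨w', e, i', t', rfl, q, -⟩
  obtain ⟨rfl, rfl⟩ := pr_inj.1 (pr_inj.1 e).2
  rw [zero_add] at p
  exact ha (std_of_le (q.trans p) (nat_std k))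

theorem low_omega (hS : Sat (aleph 1) M) : Low (deg (omega M)) :=
  ⟨fun h => not_red_omega_of_dir hS (dir_empty hS) (deg_le_iff.1 (h (deg ∅))),
    fun _ h => omega_le_of_th hS h⟩

/-- The degree of the standard cut is the least nonzero degree below all generated degrees. -/
theorem eq_omega_iff_low (hS : Sat (aleph 1) M) (a : Deg M) :
    a = deg (omega M) ↔ Low a ∧ ∀ b, Low b → a ≤ b := by
  constructor
  · rintro rfl
    exact ⟨low_omega hS, fun b hb => omega_le_of_low hS hb⟩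
  · obtain ⟨A, rfl⟩ := deg_surj a
    exact fun h => deg_eq_iff.2 ⟨deg_le_iff.1 (h.2 _ (low_omega hS)),
      deg_le_iff.1 (omega_le_of_low hS h.1)⟩

/-! ### First-order definability in the language of order -/

open FirstOrder FirstOrder.Language

/-- relations defined by a formula of the language of order -/
class OD {D : Type} [LE D] (P : (ℕ → D) → Prop) : Prop where
  out : ∃ φ : Language.order.Formula ℕ, ∀ v, P v ↔ @Formula.Realize _ D (orderStructure D) _ φ v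

section
variable {D : Type} [LE D] {P Q : (ℕ → D) → Prop} {R : D → (ℕ → D) → Prop}

theorem OD.congr (h : OD P) (e : ∀ v, P v ↔ Q v) : OD Q := by
  have : P = Q := funext fun v => propext (e v)
  exact this ▸ h

instance (i j : ℕ) : OD fun v : ℕ → D => v i ≤ v j := by
  letI := Language.orderStructure D
  have : Language.order.OrderedStructure D := ⟨fun _ => Iff.rfl⟩
  refine ⟨(Term.var (Sum.inl i)).le (Term.var (Sum.inl j)), fun v => ?_⟩
  simp [Formula.Realize, Term.realize_le]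

instance [h : OD P] : OD fun v => ¬ P v := by
  letI := Language.orderStructure D
  obtain ⟨φ, h⟩ := h.out
  exact ⟨φ.not, fun v => by rw [Formula.realize_not, h]⟩

instance [h : OD P] [h' : OD Q] : OD fun v => P v ∧ Q v := by
  letI := Language.orderStructure D
  obtain ⟨φ, h⟩ := h.out
  obtain ⟨ψ, h'⟩ := h'.out
  exact ⟨φ ⊓ ψ, fun v => by rw [Formula.realize_inf, h, h']⟩

instance (priority := 200) [h : OD P] [h' : OD Q] : OD fun v => P v → Q v := by
  letI := Language.orderStructure D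
  obtain ⟨φ, h⟩ := h.out
  obtain ⟨ψ, h'⟩ := h'.out
  exact ⟨φ.imp ψ, fun v => by rw [Formula.realize_imp, h, h']⟩

instance OD.ex [h : OD fun w => R (w 0) fun i => w (i + 1)] : OD fun v => ∃ x, R x v := by
  letI := Language.orderStructure D
  obtain ⟨φ, h⟩ := h.out
  refine ⟨Formula.iExs Unit (φ.relabel fun n => Nat.casesOn n (Sum.inr ()) Sum.inl), fun v => ?_⟩
  rw [Formula.realize_iExs]
  simp only [Formula.realize_relabel, ← h]
  exact ⟨fun ⟨x, hx⟩ => ⟨fun _ => x, hx⟩, fun ⟨x, hx⟩ => ⟨x (), hx⟩⟩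

instance (priority := 100) [h : OD fun w => R (w 0) fun i => w (i + 1)] :
    OD fun v => ∀ x, R x v :=
  OD.congr (P := fun v => ¬ ∃ x, ¬ R x v) inferInstance fun v => by simp

theorem OD.definable [h : OD P] (S : Set D) (e : ∀ x, x ∈ S ↔ P fun _ => x) :
    letI := Language.orderStructure D
    (∅ : Set D).Definable₁ Language.order S := by
  letI := Language.orderStructure D
  obtain ⟨φ, h⟩ := h.out
  rw [Set.Definable₁, Set.empty_definable_iff]
  refine ⟨φ.relabel fun _ => 0, ?_⟩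
  ext v
  simp only [Set.mem_ofPred_eq, Formula.realize_relabel, e, h]
  rfl

theorem od_low : OD fun v : ℕ → D => Low (v 0) ∧ ∀ b, Low b → v 0 ≤ b := by
  unfold Low Th rho jle
  infer_instance

end

theorem omega_definable (hS : Sat (aleph 1) M) :
    letI := Language.orderStructure (Deg M)
    (∅ : Set (Deg M)).Definable₁ Language.order {deg (omega M)} :=
  OD.definable (h := od_low) _ fun x => eq_omega_iff_low hS x

end Pool.Agent.MP_62ad46_lc.H29
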