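import Pool.Agent.MP_6072c5_lc.H80.Cover

/-! A universal `Σ₁` relation in a model of `PA`. -/

set_option linter.unusedSectionVars false
set_option synthInstance.maxSize 100000

namespace Pool.Agent.MP_62ad46_lc.H29

open Pool.Agent.MP_62ad46_lc.H18

variable {M : Type} [CommSemiring M] [LinearOrder M] [IsPA M]

omit [LinearOrder M] [IsPA M] in
theorem tm_shift {t : (ℕ → M) → M} (ht : Tm t) : Tm fun w => t fun i => w (i + 1) :=
  ht.subst (t := fun j w => w (j + 1)) fun _ => Tm.var _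

theorem d0_expr {t : (ℕ → M) → M} {R : M → M → (ℕ → M) → Prop} (ht : Tm t)
    (h : D0 fun w => R (w 1) (w 0) fun i => w (i + 1 + 1)) :
    D0 fun v => ∃ a b, t v = pr a b ∧ R a b v := by
  have h1 : D0 fun v => ∃ a, a ≤ t v ∧ ∃ b, b ≤ t v ∧ (t v = pr a b ∧ R a b v) :=
    D0.bexle ht (D0.bexle (tm_shift ht)
      (D0.and (D0.eq (tm_shift (tm_shift ht)) (Tm.pr (Tm.var 1) (Tm.var 0))) h))
  refine h1.congr fun v => ⟨fun ⟨a, _, b, _, h⟩ => ⟨a, b, h⟩, fun ⟨a, b, h⟩ => ⟨a, ?_, b, ?_, h⟩⟩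
  · rw [h.1]; exact le_pr_left _ _
  · rw [h.1]; exact le_pr_right _ _

theorem d0_allpr {t : (ℕ → M) → M} {R : M → M → (ℕ → M) → Prop} (ht : Tm t)
    (h : D0 fun w => R (w 1) (w 0) fun i => w (i + 1 + 1)) :
    D0 fun v => ∀ a b, t v = pr a b → R a b v :=
  (D0.not (d0_expr (R := fun a b v => ¬ R a b v) ht h.not)).congr fun v => by simp

theorem d0_exsnd {s t : (ℕ → M) → M} {R : M → (ℕ → M) → Prop} (hs : Tm s) (ht : Tm t)
    (h : D0 fun w => R (w 0) fun i => w (i + 1)) :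
    D0 fun v => ∃ b, t v = pr (s v) b ∧ R b v := by
  have h1 : D0 fun v => ∃ b, b ≤ t v ∧ (t v = pr (s v) b ∧ R b v) :=
    D0.bexle ht (D0.and (D0.eq (tm_shift ht) (Tm.pr (tm_shift hs) (Tm.var 0))) h)
  refine h1.congr fun v => ⟨fun ⟨b, _, h⟩ => ⟨b, h⟩, fun ⟨b, h⟩ => ⟨b, ?_, h⟩⟩
  rw [h.1]; exact le_pr_right _ _

theorem d0_allsnd {s t : (ℕ → M) → M} {R : M → (ℕ → M) → Prop} (hs : Tm s) (ht : Tm t)
    (h : D0 fun w => R (w 0) fun i => w (i + 1)) :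
    D0 fun v => ∀ b, t v = pr (s v) b → R b v :=
  (D0.not (d0_exsnd (R := fun b v => ¬ R b v) hs ht h.not)).congr fun v => by simp

/-- a bounded unary relation -/
class D1 (W : M → Prop) : Prop where out : D0 fun v => W (v 0)
/-- a bounded binary relation -/
class D2 (W : M → M → Prop) : Prop where out : D0 fun v => W (v 0) (v 1)

theorem d0_app1 {W : M → Prop} (hW : D0 fun v => W (v 0)) {a : (ℕ → M) → M} (ha : Tm a) :
    D0 fun v => W (a v) := hW.subst (t := fun _ => a) fun _ => ha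

theorem d0_app2 {W : M → M → Prop} (hW : D0 fun v => W (v 0) (v 1))
    {a b : (ℕ → M) → M} (ha : Tm a) (hb : Tm b) : D0 fun v => W (a v) (b v) :=
  hW.subst (t := fun i => match i with | 0 => a | _ => b) fun i =>
    match i with | 0 => ha | _ + 1 => hb

section
variable {s t a b : (ℕ → M) → M} {R : M → (ℕ → M) → Prop} {R2 : M → M → (ℕ → M) → Prop}

instance [x : TmI t] [h : D0I fun w => R2 (w 1) (w 0) fun i => w (i + 1 + 1)] :
    D0I fun v => ∃ a b, t v = pr a b ∧ R2 a b v := ⟨d0_expr x.out h.out⟩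
instance [x : TmI t] [h : D0I fun w => R2 (w 1) (w 0) fun i => w (i + 1 + 1)] :
    D0I fun v => ∀ a b, t v = pr a b → R2 a b v := ⟨d0_allpr x.out h.out⟩
instance [y : TmI s] [x : TmI t] [h : D0I fun w => R (w 0) fun i => w (i + 1)] :
    D0I fun v => ∃ b, t v = pr (s v) b ∧ R b v := ⟨d0_exsnd y.out x.out h.out⟩
instance [y : TmI s] [x : TmI t] [h : D0I fun w => R (w 0) fun i => w (i + 1)] :
    D0I fun v => ∀ b, t v = pr (s v) b → R b v := ⟨d0_allsnd y.out x.out h.out⟩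
instance (priority := 50) {W} [h : D1 W] [a1 : TmI a] : D0I fun v => W (a v) :=
  ⟨d0_app1 h.out a1.out⟩
instance (priority := 55) {W} [h : D2 W] [a1 : TmI a] [a2 : TmI b] :
    D0I fun v => W (a v) (b v) := ⟨d0_app2 h.out a1.out a2.out⟩
end

/-- The one-step rule of the universal relation. -/
def J (X E : M → M → Prop) (f s : M) : Prop :=
  (∃ g, f = pr 0 g ∧ ∃ a b, g = pr a b ∧ X a s ∧ X b s) ∨
  (∃ g, f = pr 1 g ∧ ∃ a b, g = pr a b ∧ (X a s ∨ X b s)) ∨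
  (∃ g, f = pr 2 g ∧ E g s) ∨
  (∃ g, f = pr 3 g ∧ ∃ a r, s = pr a r ∧ ∀ y, y < a → X g (pr y s)) ∨
  (∃ g, f = pr 4 g ∧ ∃ a r, s = pr a r ∧ X g r) ∨
  (∃ g, f = pr 5 g ∧ ∃ a r, s = pr a r ∧ ∃ b q, r = pr b q ∧ X g (pr a q)) ∨
  (f = pr 6 0 ∧ ∃ a r, s = pr a r ∧ ∃ b q, r = pr b q ∧ ∃ c p, q = pr c p ∧ c = b + a) ∨
  (f = pr 7 0 ∧ ∃ a r, s = pr a r ∧ ∃ b q, r = pr b q ∧ ∃ c p, q = pr c p ∧ c = b * a) ∨
  (f = pr 8 0 ∧ ∃ a r, s = pr a r ∧ ∃ b q, r = pr b q ∧ a < b) ∨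
  (f = pr 9 0 ∧ ∃ a r, s = pr a r ∧ ∃ b q, r = pr b q ∧ a = b) ∨
  (∃ g, f = pr 10 g ∧ ∃ a r, s = pr a r ∧ a = g)

theorem J.mono {X E X' E' : M → M → Prop} (h1 : ∀ a b, X a b → X' a b)
    (h2 : ∀ a b, E a b → E' a b) {f s : M} (h : J X E f s) : J X' E' f s := by
  unfold J at h ⊢
  rcases h with ⟨g, e, a, b, e', h, h'⟩ | ⟨g, e, a, b, e', h⟩ | ⟨g, e, h⟩ | ⟨g, e, a, r, e', h⟩ |
    ⟨g, e, a, r, e', h⟩ | ⟨g, e, a, r, e', b, q, e'', h⟩ | h
  · exact Or.inl ⟨g, e, a, b, e', h1 _ _ h, h1 _ _ h'⟩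
  · exact Or.inr (Or.inl ⟨g, e, a, b, e', h.imp (h1 _ _) (h1 _ _)⟩)
  · exact Or.inr (Or.inr (Or.inl ⟨g, e, h2 _ _ h⟩))
  · exact Or.inr (Or.inr (Or.inr (Or.inl ⟨g, e, a, r, e', fun y hy => h1 _ _ (h y hy)⟩)))
  · exact Or.inr (Or.inr (Or.inr (Or.inr (Or.inl ⟨g, e, a, r, e', h1 _ _ h⟩))))
  · exact Or.inr (Or.inr (Or.inr (Or.inr (Or.inr (Or.inl ⟨g, e, a, r, e', b, q, e'', h1 _ _ h⟩)))))
  · exact Or.inr (Or.inr (Or.inr (Or.inr (Or.inr (Or.inr h)))))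

/-- `J` for a coded set of pairs. -/
def JT (T f s : M) : Prop :=
  J (fun g r => mem (pr g r) T) (fun g r => ∃ y, y < T ∧ mem (pr g (pr y r)) T) f s

theorem JT.mono {T T' f s : M} (h : JT T f s) (e : sub T T') : JT T' f s :=
  J.mono (fun _ _ h => e _ h) (fun _ _ ⟨y, _, h⟩ => ⟨y,
    ((le_pr_left _ _).trans (le_pr_right _ _)).trans_lt (lt_of_mem (e _ h)), e _ h⟩) h

/-- every member of `T` is justified by a rule -/
def Just (T : M) : Prop := ∀ z, mem z T → ∀ f s, z = pr f s → JT T f s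

theorem just_d0 : D0 fun v : ℕ → M => Just (v 0) := by
  unfold Just JT J
  exact D0I.out

instance : D1 (Just : M → Prop) := ⟨just_d0⟩
instance : Ar1 (Just : M → Prop) := ⟨just_d0.ar⟩

/-- The universal relation. -/
def U (f s : M) : Prop := ∃ T, Just T ∧ mem (pr f s) T

theorem U_s1 : S1 fun v : ℕ → M => U (v 0) (v 1) := by
  unfold U
  exact S1I.out

theorem Just.union {T T' : M} (h : Just T) (h' : Just T') :
    ∃ S, Just S ∧ sub T S ∧ sub T' S := by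
  obtain ⟨S, hS⟩ := exists_union T T'
  have e1 : sub T S := fun x hx => (hS x).2 (Or.inl hx)
  have e2 : sub T' S := fun x hx => (hS x).2 (Or.inr hx)
  exact ⟨S, fun z hz f s e => ((hS z).1 hz).elim (fun k => (h z k f s e).mono e1)
    fun k => (h' z k f s e).mono e2, e1, e2⟩

theorem U_of_JT {T f s : M} (h : Just T) (h' : JT T f s) : U f s := by
  obtain ⟨o, ho⟩ := exists_single (pr f s)
  obtain ⟨S, hS⟩ := exists_union T o
  have e1 : sub T S := fun x hx => (hS x).2 (Or.inl hx)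
  refine ⟨S, fun z hz f' s' e => ((hS z).1 hz).elim (fun k => (h z k f' s' e).mono e1)
    fun k => ?_, (hS _).2 (Or.inr ((ho _).2 rfl))⟩
  obtain ⟨rfl, rfl⟩ := pr_inj.1 (e.symm.trans ((ho z).1 k))
  exact h'.mono e1

theorem collect {g s : M} (a : M) : (∀ y, y < a → U g (pr y s)) →
    ∃ T, Just T ∧ ∀ y, y < a → mem (pr g (pr y s)) T := by
  have : Ar2 (U : M → M → Prop) := ⟨U_s1.ar⟩
  refine IsPA.ind (fun a => (∀ y, y < a → U g (pr y s)) →
    ∃ T, Just T ∧ ∀ y, y < a → mem (pr g (pr y s)) T) (by exact ArI.out) (fun _ => ?_)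
    (fun a ih h => ?_) a
  · obtain ⟨e, he⟩ := exists_empty (M := M)
    exact ⟨e, fun z hz => (he z hz).elim, fun y hy => absurd hy (not_lt.2 (IsPA.nonneg y))⟩
  · obtain ⟨T, hT, h1⟩ := ih fun y hy => h y (hy.trans (lt_add_one a))
    obtain ⟨T', hT', h2⟩ := h a (lt_add_one a)
    obtain ⟨S, hS, e1, e2⟩ := hT.union hT'
    refine ⟨S, hS, fun y hy => ?_⟩
    rcases eq_or_lt_of_le (lt_succ_iff.1 hy) with rfl | hy
    · exact e2 _ h2
    · exact e1 _ (h1 y hy)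

theorem U_iff {f s : M} : U f s ↔ J U (fun g r => ∃ y, U g (pr y r)) f s := by
  constructor
  · rintro ⟨T, hT, h⟩
    exact J.mono (fun _ _ h => ⟨T, hT, h⟩) (fun _ _ ⟨y, _, h⟩ => ⟨y, T, hT, h⟩) (hT _ h f s rfl)
  · intro h
    unfold J at h
    rcases h with ⟨g, e, a, b, e', ⟨T, hT, h⟩, ⟨T', hT', h'⟩⟩ | ⟨g, e, a, b, e', h⟩ |
      ⟨g, e, y, T, hT, h⟩ | ⟨g, e, a, r, e', h⟩ | ⟨g, e, a, r, e', T, hT, h⟩ |
      ⟨g, e, a, r, e', b, q, e'', T, hT, h⟩ | h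
    · obtain ⟨S, hS, e1, e2⟩ := hT.union hT'
      exact U_of_JT hS (Or.inl ⟨g, e, a, b, e', e1 _ h, e2 _ h'⟩)
    · rcases h with ⟨T, hT, h⟩ | ⟨T, hT, h⟩
      · exact U_of_JT hT (Or.inr (Or.inl ⟨g, e, a, b, e', Or.inl h⟩))
      · exact U_of_JT hT (Or.inr (Or.inl ⟨g, e, a, b, e', Or.inr h⟩))
    · exact U_of_JT hT (Or.inr (Or.inr (Or.inl ⟨g, e, y,
        ((le_pr_left _ _).trans (le_pr_right _ _)).trans_lt (lt_of_mem h), h⟩)))
    · obtain ⟨T, hT, h⟩ := collect a h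
      exact U_of_JT hT (Or.inr (Or.inr (Or.inr (Or.inl ⟨g, e, a, r, e', h⟩))))
    · exact U_of_JT hT (Or.inr (Or.inr (Or.inr (Or.inr (Or.inl ⟨g, e, a, r, e', h⟩)))))
    · exact U_of_JT hT
        (Or.inr (Or.inr (Or.inr (Or.inr (Or.inr (Or.inl ⟨g, e, a, r, e', b, q, e'', h⟩))))))
    · obtain ⟨e, he⟩ := exists_empty (M := M)
      exact U_of_JT (T := e) (fun z hz => (he z hz).elim)
        (Or.inr (Or.inr (Or.inr (Or.inr (Or.inr (Or.inr h))))))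

/-- the tuple of the first `N` values of an assignment -/
def tup : ℕ → (ℕ → M) → M
  | 0, _ => 0
  | N + 1, v => pr (v 0) (tup N fun i => v (i + 1))

omit [LinearOrder M] [IsPA M] in
theorem tup_tm : ∀ N : ℕ, Tm (tup N : (ℕ → M) → M)
  | 0 => Tm.const 0
  | N + 1 => Tm.pr (Tm.var 0) (tm_shift (tup_tm N))

/-- The relation `Q` has an index. -/
def Rep (Q : (ℕ → M) → Prop) : Prop := ∃ f : M, ∃ K : ℕ, ∀ N, K ≤ N → ∀ v, Q v ↔ U f (tup N v)

theorem Rep.congr {P Q : (ℕ → M) → Prop} (h : Rep P) (e : ∀ v, P v ↔ Q v) : Rep Q := by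
  have : P = Q := funext fun v => propext (e v)
  exact this ▸ h

theorem Rep.s1 {Q : (ℕ → M) → Prop} (h : Rep Q) : S1 Q := by
  obtain ⟨f, K, h⟩ := h
  exact (U_s1.app2 (Tm.const f) (tup_tm K)).congr fun v => (h K le_rfl v).symm

theorem Rep.and {P Q : (ℕ → M) → Prop} (h1 : Rep P) (h2 : Rep Q) : Rep fun v => P v ∧ Q v := by
  obtain ⟨f, K, h⟩ := h1
  obtain ⟨g, L, h'⟩ := h2
  refine ⟨pr 0 (pr f g), max K L, fun N hN v => ?_⟩
  beta_reduce
  rw [h N (le_of_max_le_left hN), h' N (le_of_max_le_right hN), U_iff (f := pr 0 _)]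
  simp [J, pr_inj, and_assoc]

theorem Rep.or {P Q : (ℕ → M) → Prop} (h1 : Rep P) (h2 : Rep Q) : Rep fun v => P v ∨ Q v := by
  obtain ⟨f, K, h⟩ := h1
  obtain ⟨g, L, h'⟩ := h2
  refine ⟨pr 1 (pr f g), max K L, fun N hN v => ?_⟩
  beta_reduce
  rw [h N (le_of_max_le_left hN), h' N (le_of_max_le_right hN), U_iff (f := pr 1 _)]
  simp [J, pr_inj, and_assoc]

theorem Rep.ex {P : (ℕ → M) → Prop} (h1 : Rep P) : Rep fun v => ∃ x, P (cons x v) := by
  obtain ⟨f, K, h⟩ := h1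
  refine ⟨pr 2 f, K, fun N hN v => ?_⟩
  have : ∀ x, P (cons x v) ↔ U f (pr x (tup N v)) := fun x => h (N + 1) (hN.trans N.le_succ) _
  rw [U_iff (f := pr 2 _)]
  simp [J, pr_inj, this]

theorem Rep.ball {P : (ℕ → M) → Prop} (h1 : Rep P) :
    Rep fun v => ∀ x, x < v 0 → P (cons x v) := by
  obtain ⟨f, K, h⟩ := h1
  refine ⟨pr 3 f, K + 1, fun N hN v => ?_⟩
  have : ∀ x, P (cons x v) ↔ U f (pr x (tup N v)) := fun x =>
    h (N + 1) ((Nat.le_of_succ_le hN).trans N.le_succ) _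
  obtain ⟨n, rfl⟩ := Nat.exists_eq_add_one_of_ne_zero (Nat.ne_zero_of_lt hN)
  rw [U_iff (f := pr 3 _)]
  simp [J, pr_inj, this, tup, and_assoc]

theorem Rep.drop {P : (ℕ → M) → Prop} (h1 : Rep P) : Rep fun v => P fun i => v (i + 1) := by
  obtain ⟨f, K, h⟩ := h1
  refine ⟨pr 4 f, K + 1, fun N hN v => ?_⟩
  obtain ⟨n, rfl⟩ := Nat.exists_eq_add_one_of_ne_zero (Nat.ne_zero_of_lt hN)
  beta_reduce
  rw [U_iff (f := pr 4 _), h n (Nat.le_of_succ_le_succ hN)]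
  simp [J, pr_inj, tup, and_assoc]

theorem Rep.drop1 {P : (ℕ → M) → Prop} (h1 : Rep P) :
    Rep fun v => P (cons (v 0) fun i => v (i + 1 + 1)) := by
  obtain ⟨f, K, h⟩ := h1
  refine ⟨pr 5 f, K + 2, fun N hN v => ?_⟩
  obtain ⟨n, rfl⟩ := Nat.exists_eq_add_of_le' (Nat.le_of_add_left_le hN)
  beta_reduce
  rw [U_iff (f := pr 5 _), h (n + 1) ((Nat.le_of_add_le_add_right hN).trans n.le_succ)]
  simp [J, pr_inj, tup, and_assoc]

theorem rep_add : Rep fun v : ℕ → M => v 2 = v 1 + v 0 := by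
  refine ⟨pr 6 0, 3, fun N hN v => ?_⟩
  obtain ⟨n, rfl⟩ := Nat.exists_eq_add_of_le' hN
  rw [U_iff (f := pr 6 _)]
  simp [J, pr_inj, tup, and_assoc]

theorem rep_mul : Rep fun v : ℕ → M => v 2 = v 1 * v 0 := by
  refine ⟨pr 7 0, 3, fun N hN v => ?_⟩
  obtain ⟨n, rfl⟩ := Nat.exists_eq_add_of_le' hN
  rw [U_iff (f := pr 7 _)]
  simp [J, pr_inj, tup, and_assoc]

theorem rep_lt : Rep fun v : ℕ → M => v 0 < v 1 := by
  refine ⟨pr 8 0, 2, fun N hN v => ?_⟩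
  obtain ⟨n, rfl⟩ := Nat.exists_eq_add_of_le' hN
  rw [U_iff (f := pr 8 _)]
  simp [J, pr_inj, tup, and_assoc]

theorem rep_eq : Rep fun v : ℕ → M => v 0 = v 1 := by
  refine ⟨pr 9 0, 2, fun N hN v => ?_⟩
  obtain ⟨n, rfl⟩ := Nat.exists_eq_add_of_le' hN
  rw [U_iff (f := pr 9 _)]
  simp [J, pr_inj, tup, and_assoc]
  exact eq_comm

theorem rep_const (c : M) : Rep fun v : ℕ → M => v 0 = c := by
  refine ⟨pr 10 c, 1, fun N hN v => ?_⟩
  obtain ⟨n, rfl⟩ := Nat.exists_eq_add_of_le' hN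
  rw [U_iff (f := pr 10 _)]
  simp [J, pr_inj, tup, and_assoc]

theorem rep_var : ∀ i : ℕ, Rep fun v : ℕ → M => v 0 = v (i + 1)
  | 0 => rep_eq
  | i + 1 => (rep_var i).drop1

theorem rep_tm {t : (ℕ → M) → M} (ht : Tm t) : Rep fun v => v 0 = t fun i => v (i + 1) := by
  induction ht with
  | var i => exact rep_var i
  | const c => exact rep_const c
  | @add s t _ _ h1 h2 =>
    refine (rep_add.and (h1.drop1.drop.and h2.drop1.drop1)).ex.ex.congr fun v => ⟨?_, fun h => ?_⟩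
    · rintro ⟨a, b, e, e1, e2⟩
      have e0 : v 0 = a + b := e
      have e1' : a = s fun i => v (i + 1) := e1
      have e2' : b = t fun i => v (i + 1) := e2
      rw [e1', e2'] at e0
      exact e0
    · exact ⟨_, _, h, rfl, rfl⟩
  | @mul s t _ _ h1 h2 =>
    refine (rep_mul.and (h1.drop1.drop.and h2.drop1.drop1)).ex.ex.congr fun v => ⟨?_, fun h => ?_⟩
    · rintro ⟨a, b, e, e1, e2⟩
      have e0 : v 0 = a * b := e
      have e1' : a = s fun i => v (i + 1) := e1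
      have e2' : b = t fun i => v (i + 1) := e2
      rw [e1', e2'] at e0
      exact e0
    · exact ⟨_, _, h, rfl, rfl⟩

theorem rep_rel {R : M → M → Prop} (hR : Rep fun v => R (v 0) (v 1)) {s t : (ℕ → M) → M}
    (hs : Tm s) (ht : Tm t) : Rep fun v => R (s v) (t v) := by
  refine (hR.and ((rep_tm ht).drop.and (rep_tm hs).drop1)).ex.ex.congr fun v => ⟨?_, fun h => ?_⟩
  · rintro ⟨a, b, e, e1, e2⟩
    have e0 : R b a := e
    have e1' : a = t v := e1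
    have e2' : b = s v := e2
    rw [e1', e2'] at e0
    exact e0
  · exact ⟨_, _, h, rfl, rfl⟩

theorem Rep.ballt {t : (ℕ → M) → M} {P : (ℕ → M) → Prop} (ht : Tm t) (h : Rep P) :
    Rep fun v => ∀ x, x < t v → P (cons x v) := by
  refine ((rep_tm ht).and h.drop1.ball).ex.congr fun v => ⟨?_, fun h => ⟨_, rfl, h⟩⟩
  rintro ⟨a, e, h⟩
  have e' : a = t v := e
  have h' : ∀ x, x < a → P (cons x v) := h
  rw [e'] at h'
  exact h'

theorem rep_d0 {P : (ℕ → M) → Prop} (h : D0 P) : Rep P ∧ Rep fun v => ¬ P v := by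
  induction h with
  | eq h1 h2 =>
    exact ⟨rep_rel rep_eq h1 h2, ((rep_rel rep_lt h1 h2).or (rep_rel rep_lt h2 h1)).congr
      fun v => lt_or_lt_iff_ne⟩
  | lt h1 h2 =>
    exact ⟨rep_rel rep_lt h1 h2, ((rep_rel rep_lt h2 h1).or (rep_rel rep_eq h2 h1)).congr
      fun v => by rw [not_lt, le_iff_lt_or_eq]⟩
  | not _ ih => exact ⟨ih.2, ih.1.congr fun v => not_not.symm⟩
  | and _ _ h1 h2 => exact ⟨h1.1.and h2.1, (h1.2.or h2.2).congr fun v => not_and_or.symm⟩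
  | bex ht _ ih =>
    exact ⟨((rep_rel rep_lt (Tm.var 0) (tm_shift ht)).and ih.1).ex,
      (Rep.ballt ht ih.2).congr fun v => by simp⟩

theorem rep_s1 {P : (ℕ → M) → Prop} (h : S1 P) : Rep P := by
  induction h with
  | d0 h => exact (rep_d0 h).1
  | ex _ ih => exact ih.ex

/-- Collection: `Σ₁` relations are closed under bounded universal quantification. -/
theorem s1_ball {t : (ℕ → M) → M} {Q : M → (ℕ → M) → Prop} (ht : Tm t)
    (h : S1 fun w => Q (w 0) fun i => w (i + 1)) : S1 fun v => ∀ x, x < t v → Q x v :=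
  (Rep.ballt ht (rep_s1 h)).s1

theorem s1_ballle {t : (ℕ → M) → M} {Q : M → (ℕ → M) → Prop} (ht : Tm t)
    (h : S1 fun w => Q (w 0) fun i => w (i + 1)) : S1 fun v => ∀ x, x ≤ t v → Q x v :=
  (s1_ball (Tm.add ht (Tm.const 1)) h).congr fun v => by simp only [lt_succ_iff]

/-- A universal binary `Σ₁` relation. -/
theorem exists_univ2 : ∃ V : M → M → M → Prop, (S1 fun v => V (v 0) (v 1) (v 2)) ∧
    ∀ P : M → M → Prop, (S1 fun v => P (v 0) (v 1)) → ∃ e, ∀ x y, P x y ↔ V e x y := by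
  have : S2 (U : M → M → Prop) := ⟨U_s1⟩
  refine ⟨fun e x y => ∃ f z, e = pr f z ∧ U f (pr x (pr y z)), by exact S1I.out, fun P hP => ?_⟩
  obtain ⟨f, K, h⟩ := rep_s1 hP
  refine ⟨pr f (tup K fun _ => 0), fun x y => ?_⟩
  have := h (K + 2) (Nat.le_add_right _ _) (cons x (cons y fun _ => 0))
  simpa [pr_inj, and_assoc, tup] using this

/-- Countably many four-place `Σ₁` relations are sections of a single one. -/
theorem exists_unif (hS : Sat (Cardinal.aleph 1) M) (C : ℕ → M → M → M → M → Prop)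
    (hC : ∀ n, S1 fun v => C n (v 0) (v 1) (v 2) (v 3)) :
    ∃ V : M → M → Prop, (S1 fun v => V (v 0) (v 1)) ∧
      ∀ (n : ℕ) (a b c d : M), C n a b c d ↔ V n (pr a (pr b (pr c d))) := by
  obtain ⟨V, hV, H⟩ := exists_univ2 (M := M)
  have : ∀ n, ∃ e, ∀ x y : M,
      (∃ a b c d, x = pr a (pr b (pr c d)) ∧ C n a b c d ∧ y = y) ↔ V e x y := fun n => by
    have : S4 (C n) := ⟨hC n⟩
    exact H _ (by exact S1I.out)
  choose e he using this
  obtain ⟨D, hD⟩ := hS.code e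
  refine ⟨fun n x => ∃ f, mem (pr n f) D ∧ V f x 0, S1.ex' (S1.and (by exact S1I.out) ?_),
    fun n a b c d => ?_⟩
  · exact hV.subst (t := fun i => match i with
      | 0 => fun w => w 0 | 1 => fun w => w 2 | _ => fun _ => 0) fun i =>
      match i with | 0 => Tm.var 0 | 1 => Tm.var 2 | _ + 2 => Tm.const 0
  · simp [hD, ← he, pr_inj, and_assoc]

end Pool.Agent.MP_62ad46_lc.H29
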